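import Pool.Agent.Lib_helper1.ZO.Defs

/-! # ZO: algebra (helper1) -/

set_option autoImplicit false

namespace Pool.Agent.ZO

open Finset Pool.Agent.MQ

theorem nm01 (v : El) : nm 0 1 v = v.1 ^ 2 + v.2 ^ 2 := by unfold nm; ring

theorem bl01 (v w : El) : bl 0 1 v w = v.1 * w.1 + v.2 * w.2 := by unfold bl; ring

theorem ml01 (v w : El) : ml 0 1 v w = (v.1 * w.1 - v.2 * w.2, v.1 * w.2 + v.2 * w.1) := by
  unfold ml
  ext <;> simp

theorem fv01 (n : ℤ) : fv 0 1 n = n ^ 2 + 1 := by unfold fv; ring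

theorem dsc01 : dsc 0 1 < 0 := by unfold dsc; norm_num

theorem not_sq01 : ¬ IsSquare (dsc 0 1) := by
  rintro ⟨k, hk⟩
  have := dsc01
  nlinarith [mul_self_nonneg k]

/-- the vectors of a cone have nonnegative inner products -/
theorem acute (S : Sys 0 1) {i : ℕ} (hi : i < S.r) (s t s' t' : ℕ) :
    0 ≤ bl 0 1 (cn S.e i s t) (cn S.e i s' t') := by
  have h := S.e_ac i hi
  have h1 := S.e_nm i hi.le
  have h2 := S.e_nm (i + 1) hi
  rw [bl01]
  rw [nm01] at h1 h2
  simp only [nm01, cn] at h ⊢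
  set x := (S.e i).1
  set y := (S.e i).2
  set x' := (S.e (i + 1)).1
  set y' := (S.e (i + 1)).2
  have h3 : 0 < x * x' + y * y' := by
    push_cast at h
    nlinarith
  have e : ((s : ℤ) * x + t * x') * ((s' : ℤ) * x + t' * x') +
      ((s : ℤ) * y + t * y') * ((s' : ℤ) * y + t' * y') =
      (s : ℤ) * s' * (x ^ 2 + y ^ 2) + ((s : ℤ) * t' + t * s') * (x * x' + y * y') +
        (t : ℤ) * t' * (x' ^ 2 + y' ^ 2) := by ring
  rw [e]
  positivity

/-- the units -/
def uns : Finset El := {(1, 0), (-1, 0), (0, 1), (0, -1)}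

theorem mem_uns {ε : El} (h : nm 0 1 ε = 1) : ε ∈ uns := by
  rw [nm01] at h
  obtain ⟨x, y⟩ := ε
  simp only at h
  have hx : x ^ 2 ≤ 1 := by nlinarith [sq_nonneg y]
  have hy : y ^ 2 ≤ 1 := by nlinarith [sq_nonneg x]
  have hx1 : x ≤ 1 := by nlinarith
  have hx2 : -1 ≤ x := by nlinarith
  have hy1 : y ≤ 1 := by nlinarith
  have hy2 : -1 ≤ y := by nlinarith
  unfold uns
  interval_cases x <;> interval_cases y <;> simp_all

theorem uns_card : uns.card ≤ 4 := by
  unfold uns
  exact Finset.card_le_four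

/-- an edge is determined by `(a, b)` up to a unit -/
theorem unit_of_eq {w w' x x' : El} (h1 : dt w w' = 1) (h2 : dt x x' = 1)
    (h3 : nm 0 1 w = nm 0 1 x) (h4 : 0 < nm 0 1 w) (h5 : bl 0 1 w w' = bl 0 1 x x') :
    ∃ ε ∈ uns, x = ml 0 1 ε w ∧ x' = ml 0 1 ε w' := by
  obtain ⟨a, b⟩ := w
  obtain ⟨a', b'⟩ := w'
  obtain ⟨p, q⟩ := x
  obtain ⟨p', q'⟩ := x'
  simp only [dt, nm01, bl01] at h1 h2 h3 h4 h5
  set n := a ^ 2 + b ^ 2 with hn
  set m := a * a' + b * b' with hm
  -- n w' = w (m + i)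
  have e1 : n * a' = a * m - b := by rw [hn, hm]; linear_combination (-b) * h1
  have e2 : n * b' = b * m + a := by rw [hn, hm]; linear_combination a * h1
  have e3 : n * p' = p * m - q := by
    rw [h3, h5]; linear_combination (-q) * h2
  have e4 : n * q' = q * m + p := by
    rw [h3, h5]; linear_combination p * h2
  have hn0 : n ≠ 0 := h4.ne'
  -- x' w = x w'
  have f1 : p' * a - q' * b = p * a' - q * b' := by
    apply mul_left_cancel₀ hn0
    linear_combination a * e3 - b * e4 - p * e1 + q * e2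
  have f2 : p' * b + q' * a = p * b' + q * a' := by
    apply mul_left_cancel₀ hn0
    linear_combination b * e3 + a * e4 - p * e2 - q * e1
  set ε : El := (b' * p - b * p', b' * q - b * q') with hε
  have g1 : (p, q) = ml 0 1 ε (a, b) := by
    rw [ml01, hε]
    ext
    · simp only
      linear_combination (-p) * h1 + b * f1
    · simp only
      linear_combination (-q) * h1 + b * f2
  have g2 : (p', q') = ml 0 1 ε (a', b') := by
    rw [ml01, hε]
    ext
    · simp only
      linear_combination (-p') * h1 + b' * f1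
    · simp only
      linear_combination (-q') * h1 + b' * f2
  refine ⟨ε, mem_uns ?_, g1, g2⟩
  have g3 := congrArg (nm 0 1) g1
  rw [nm_ml, nm01, nm01 (a, b)] at g3
  simp only at g3
  rw [← h3] at g3
  have : n * 1 = n * nm 0 1 ε := by rw [mul_one]; linarith
  exact (mul_left_cancel₀ hn0 this).symm

/-- dyadic intervals -/
theorem dyad {x x0 : ℝ} (L : ℕ) (h1 : x0 < x) (h2 : x ≤ 2 ^ L * x0) :
    ∃ l < L, 2 ^ l * x0 < x ∧ x ≤ 2 * (2 ^ l * x0) := by
  induction L with
  | zero => simp at h2; linarith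
  | succ L ih =>
    rcases le_or_gt x (2 ^ L * x0) with h | h
    · obtain ⟨l, hl, h3⟩ := ih h
      exact ⟨l, by omega, h3⟩
    · refine ⟨L, by omega, h, ?_⟩
      rw [pow_succ] at h2
      linarith

end Pool.Agent.ZO
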