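import Pool.Agent.Lib_helper1.ZO.A

/-! # ZO: the exceptional forms in a union of boxes (helper1) -/

set_option autoImplicit false

namespace Pool.Agent.ZO

open Finset Pool.Agent.MQ

theorem ab_card (hPT : ∀ δ C1 : ℝ, 0 < δ → 1 ≤ C1 → PATH.PT01 δ C1) (K : ℕ) (hK : 1 ≤ K) {δ : ℝ}
    (hδ : 0 < δ) : ∃ (c : ℝ) (N : ℕ), 0 < c ∧ ∃ Y₀ : ℝ, 1 ≤ Y₀ ∧ ∀ h : ℕ → ℤ, PENT.CM h →
    ∀ Y : ℝ, Y₀ ≤ Y → ∀ σ : ℤ, (σ = 1 ∨ σ = -1) →
    (((Icc 1 ⌊N * Y⌋₊).filter (fun n => h (n ^ 2 + 1) = σ)).card : ℝ) < c * Y →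
    ∀ AB : Finset (ℕ × ℕ), (∀ y ∈ AB, Y / K ≤ y.1 ∧ (y.1 : ℝ) ≤ K * Y ∧ Y / K ≤ y.2 ∧
      (y.2 : ℝ) ≤ K * Y ∧ y.1 ∣ y.2 ^ 2 + 1 ∧ h y.1 ≠ h ((y.2 ^ 2 + 1) / y.1)) →
    (AB.card : ℝ) ≤ δ * Y := by
  classical
  set J : ℕ := 16 * K ^ 4 with hJ
  have hJ1 : 1 ≤ J := by
    rw [hJ]
    have : 1 ≤ K ^ 4 := Nat.one_le_pow _ _ hK
    omega
  have hKr : (1 : ℝ) ≤ K := by exact_mod_cast hK
  have hJ2 : 16 * (K : ℝ) ^ 4 ≤ 2 ^ J := by
    have h1 : J < 2 ^ J := Nat.lt_two_pow_self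
    have h2 : (J : ℝ) ≤ 2 ^ J := by exact_mod_cast h1.le
    have h3 : (J : ℝ) = 16 * (K : ℝ) ^ 4 := by rw [hJ]; push_cast; ring
    linarith
  have hK2 : (1 : ℝ) ≤ (K : ℝ) ^ 2 := one_le_pow₀ hKr
  have hK24 : (K : ℝ) ^ 2 ≤ (K : ℝ) ^ 4 := pow_le_pow_right₀ hKr (by norm_num)
  have hJr : (1 : ℝ) ≤ J := by exact_mod_cast hJ1
  have h2J : (1 : ℝ) ≤ 2 ^ J := one_le_pow₀ (by norm_num)
  set C1 : ℝ := 2 ^ J * (2 * (K : ℝ) ^ 2) with hC1
  set δ' : ℝ := δ / (J * J * 2 ^ J) with hδ'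
  have hδ'0 : 0 < δ' := by positivity
  have hC11 : 1 ≤ C1 := by rw [hC1]; nlinarith
  obtain ⟨c0, N0, hc0, X0, hP⟩ := hPT δ' C1 hδ'0 hC11
  refine ⟨c0 / (4 * K), N0 * 2 ^ J, by positivity, max (4 * K) (4 * K * X0), ?_, ?_⟩
  · exact le_trans (by linarith) (le_max_left _ _)
  intro h hh Y hY σ hσ hE AB hAB
  have hY1 : 4 * (K : ℝ) ≤ Y := (le_max_left _ _).trans hY
  have hY2 : 4 * K * (X0 : ℝ) ≤ Y := (le_max_right _ _).trans hY
  have hY0 : 0 < Y := by linarith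
  set m : ℕ := ⌊Y / (2 * K)⌋₊ with hm
  have hm1 : (m : ℝ) ≤ Y / (2 * K) := Nat.floor_le (by positivity)
  have hm2 : Y / (4 * K) ≤ m := by
    have h1 : Y / (2 * K) - 1 < m := by
      have := Nat.lt_floor_add_one (Y / (2 * K))
      rw [hm]; linarith
    have h2 : (1 : ℝ) ≤ Y / (4 * K) := by
      rw [le_div_iff₀ (by positivity)]; linarith
    have h3 : Y / (2 * K) = 2 * (Y / (4 * K)) := by field_simp; ring
    linarith
  have hmY : (m : ℝ) ≤ Y := hm1.trans (div_le_self hY0.le (by linarith))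
  have hX0m : (X0 : ℝ) ≤ m := by
    refine le_trans ?_ hm2
    rw [le_div_iff₀ (by positivity)]
    linarith
  have hmpos : (0 : ℝ) < m := lt_of_lt_of_le (by positivity) hm2
  -- the boxes
  let B : ℕ → ℕ → Finset (ℕ × ℕ) := fun j l =>
    (PATH.Box (2 ^ j * m) (2 ^ l / (2 * (K : ℝ) ^ 2))).filter
      (fun y => h y.1 ≠ h ((y.2 ^ 2 + 1) / y.1))
  have hB : ∀ j < J, ∀ l < J, ((B j l).card : ℝ) ≤ δ' * (2 ^ J * m) := by
    intro j hj l hl
    have hjJ : (2 : ℝ) ^ j ≤ 2 ^ J := pow_le_pow_right₀ (by norm_num) hj.le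
    have hlJ : (2 : ℝ) ^ l ≤ 2 ^ J := pow_le_pow_right₀ (by norm_num) hl.le
    have h1j : (1 : ℝ) ≤ 2 ^ j := one_le_pow₀ (by norm_num)
    have h1l : (1 : ℝ) ≤ 2 ^ l := one_le_pow₀ (by norm_num)
    have hXm : m ≤ 2 ^ j * m := Nat.le_mul_of_pos_left _ (by positivity)
    have h1 : X0 ≤ 2 ^ j * m := by
      refine le_trans ?_ hXm
      exact_mod_cast hX0m
    have h2 : (((Icc 1 (N0 * (2 ^ j * m))).filter (fun n => h (n ^ 2 + 1) = σ)).card : ℝ) <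
        c0 * ((2 ^ j * m : ℕ) : ℝ) := by
      have h3 : (Icc 1 (N0 * (2 ^ j * m))).filter (fun n => h (n ^ 2 + 1) = σ) ⊆
          (Icc 1 ⌊((N0 * 2 ^ J : ℕ) : ℝ) * Y⌋₊).filter (fun n => h (n ^ 2 + 1) = σ) := by
        apply Finset.filter_subset_filter
        apply Finset.Icc_subset_Icc_right
        apply Nat.le_floor
        push_cast
        have h4 : (N0 : ℝ) * (2 ^ j * m) ≤ N0 * (2 ^ J * Y) := by
          apply mul_le_mul_of_nonneg_left _ (Nat.cast_nonneg _)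
          exact mul_le_mul hjJ hmY hmpos.le (by positivity)
        linarith
      have h4 : (((Icc 1 (N0 * (2 ^ j * m))).filter (fun n => h (n ^ 2 + 1) = σ)).card : ℝ) ≤
          (((Icc 1 ⌊((N0 * 2 ^ J : ℕ) : ℝ) * Y⌋₊).filter
            (fun n => h (n ^ 2 + 1) = σ)).card : ℝ) := by
        exact_mod_cast Finset.card_le_card h3
      refine lt_of_le_of_lt h4 (lt_of_lt_of_le hE ?_)
      have h5 : c0 / (4 * K) * Y = c0 * (Y / (4 * K)) := by ring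
      rw [h5]
      apply mul_le_mul_of_nonneg_left _ hc0.le
      refine hm2.trans ?_
      exact_mod_cast hXm
    have h3 := hP h hh (2 ^ j * m) h1 σ hσ h2 (2 ^ l / (2 * (K : ℝ) ^ 2)) ?_ ?_
    · refine h3.trans ?_
      apply mul_le_mul_of_nonneg_left _ hδ'0.le
      push_cast
      exact mul_le_mul_of_nonneg_right hjJ hmpos.le
    · rw [hC1, div_le_div_iff₀ (by positivity) (by positivity)]
      nlinarith [mul_nonneg (sub_nonneg.2 h1l) (by positivity : (0 : ℝ) ≤ 2 * (K : ℝ) ^ 2)]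
    · rw [hC1, div_le_iff₀ (by positivity)]
      have : (1 : ℝ) ≤ 2 * (K : ℝ) ^ 2 * (2 * (K : ℝ) ^ 2) := by nlinarith
      nlinarith
  have hsub : AB ⊆ (range J).biUnion (fun j => (range J).biUnion (fun l => B j l)) := by
    intro y hy
    obtain ⟨h1, h2, h3, h4, h5, h6⟩ := hAB y hy
    have hKY : Y / (2 * K) < Y / K := by
      apply div_lt_div_of_pos_left hY0 (by positivity) (by linarith)
    obtain ⟨j, hj, hj1, hj2⟩ := dyad (x := y.1) (x0 := m) J (by linarith) (by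
      refine h2.trans ?_
      have : (2 : ℝ) ^ J * (Y / (4 * K)) ≤ 2 ^ J * m :=
        mul_le_mul_of_nonneg_left hm2 (by positivity)
      refine le_trans ?_ this
      rw [mul_div_assoc', le_div_iff₀ (by positivity)]
      have : K * Y * (4 * K) = 4 * (K : ℝ) ^ 2 * Y := by ring
      rw [this]
      apply mul_le_mul_of_nonneg_right _ hY0.le
      linarith)
    have hXpos : (0 : ℝ) < 2 ^ j * m := by positivity
    have h1j : (1 : ℝ) ≤ 2 ^ j := one_le_pow₀ (by norm_num)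
    obtain ⟨l, hl, hl1, hl2⟩ := dyad (x := y.2 / (2 ^ j * m)) (x0 := 1 / (2 * (K : ℝ) ^ 2)) J (by
      rw [div_lt_div_iff₀ (by positivity) hXpos]
      have h7 : (2 : ℝ) ^ j * m < K * Y := lt_of_lt_of_le hj1 h2
      have h8 : Y ≤ y.2 * K := by rwa [div_le_iff₀ (by positivity)] at h3
      nlinarith) (by
      rw [div_le_iff₀ hXpos]
      refine h4.trans ?_
      have h7 : Y / (4 * K) ≤ 2 ^ j * m := hm2.trans (by nlinarith)
      have h8 : 2 ^ J * (1 / (2 * (K : ℝ) ^ 2)) * (Y / (4 * K)) ≤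
          2 ^ J * (1 / (2 * (K : ℝ) ^ 2)) * (2 ^ j * m) :=
        mul_le_mul_of_nonneg_left h7 (by positivity)
      refine le_trans ?_ h8
      have h9 : 2 ^ J * (1 / (2 * (K : ℝ) ^ 2)) * (Y / (4 * K)) = 2 ^ J * Y / (8 * (K : ℝ) ^ 3) := by
        field_simp; ring
      rw [h9, le_div_iff₀ (by positivity)]
      have : K * Y * (8 * (K : ℝ) ^ 3) = 8 * (K : ℝ) ^ 4 * Y := by ring
      rw [this]
      apply mul_le_mul_of_nonneg_right _ hY0.le
      linarith [pow_nonneg (by linarith : (0 : ℝ) ≤ K) 4])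
    rw [Finset.mem_biUnion]
    refine ⟨j, Finset.mem_range.2 hj, ?_⟩
    rw [Finset.mem_biUnion]
    refine ⟨l, Finset.mem_range.2 hl, ?_⟩
    rw [lt_div_iff₀ hXpos] at hl1
    rw [div_le_iff₀ hXpos] at hl2
    simp only [B, PATH.Box, Finset.mem_filter, Finset.mem_product, Finset.mem_Ioc,
      Finset.mem_Icc]
    refine ⟨⟨⟨⟨?_, ?_⟩, ?_, ?_⟩, ?_, h5⟩, h6⟩
    · exact_mod_cast hj1
    · have : (y.1 : ℝ) ≤ ((2 * (2 ^ j * m) : ℕ) : ℝ) := by push_cast; linarith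
      exact_mod_cast this
    · have : (0 : ℝ) < y.2 := lt_of_lt_of_le (by positivity) h3
      exact_mod_cast this
    · apply Nat.le_floor
      push_cast
      refine hl2.trans (le_of_eq ?_)
      field_simp
    · push_cast
      refine lt_of_eq_of_lt ?_ hl1
      field_simp
  have h1 : AB.card ≤ ∑ j ∈ range J, ∑ l ∈ range J, (B j l).card := by
    refine (Finset.card_le_card hsub).trans ?_
    refine Finset.card_biUnion_le.trans ?_
    exact Finset.sum_le_sum fun j _ => Finset.card_biUnion_le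
  have h2 : (AB.card : ℝ) ≤ ∑ j ∈ range J, ∑ l ∈ range J, δ' * (2 ^ J * m) := by
    have h3 : (AB.card : ℝ) ≤ ∑ j ∈ range J, ∑ l ∈ range J, ((B j l).card : ℝ) := by
      exact_mod_cast h1
    refine h3.trans ?_
    apply Finset.sum_le_sum
    intro j hj
    apply Finset.sum_le_sum
    intro l hl
    exact hB j (Finset.mem_range.1 hj) l (Finset.mem_range.1 hl)
  refine h2.trans ?_
  rw [Finset.sum_const, Finset.sum_const, Finset.card_range, nsmul_eq_mul, nsmul_eq_mul]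
  have h3 : (J : ℝ) * (J * (δ' * (2 ^ J * m))) = δ * m := by
    rw [hδ']
    field_simp
  rw [h3]
  exact mul_le_mul_of_nonneg_left hmY hδ.le

end Pool.Agent.ZO
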