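import Pool.Agent.Lib_helper1.ZO.A

/-! # ZO: elements near vertices of small height (helper1) -/

set_option autoImplicit false

namespace Pool.Agent.ZO

open Finset Pool.Agent.MQ

section
variable {b c : ℤ} (S : Sys b c)

theorem not_cop_zero {s t : ℕ} (h : Nat.Coprime s t) : 1 ≤ s + t := by
  by_contra hc
  have h1 : s = 0 := by omega
  have h2 : t = 0 := by omega
  rw [h1, h2] at h
  exact absurd h (by decide)

open Classical in
theorem unb_card : ∃ C : ℝ, 1 ≤ C ∧ ∀ (Y K R : ℝ), 1 ≤ Y → 0 ≤ K → 0 < R → ∀ m : ℕ,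
    (m : ℝ) ≤ Real.sqrt Y →
    (((S.MF Y).filter (fun v => ∃ i s t : ℕ, i < S.r ∧ Nat.Coprime s t ∧ s + t ≤ m ∧
      |S.u v - S.u (cn S.e i s t)| ≤ K / (((s + t : ℕ) : ℝ) * R))).card : ℝ) ≤
      C * (K * Y * m / R + Real.sqrt Y * m + (m : ℝ) ^ 2) := by
  obtain ⟨C0, hC0, hnear⟩ := near_card S
  refine ⟨4 * C0, by linarith, ?_⟩
  intro Y K R hY hK hR m
  induction m using Nat.strong_induction_on with
  | _ m ih =>
    intro hm
    rcases Nat.eq_zero_or_pos m with h0 | hpos
    · have hemp : (S.MF Y).filter (fun v => ∃ i s t : ℕ, i < S.r ∧ Nat.Coprime s t ∧ s + t ≤ m ∧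
          |S.u v - S.u (cn S.e i s t)| ≤ K / (((s + t : ℕ) : ℝ) * R)) = ∅ := by
        apply Finset.filter_eq_empty_iff.2
        rintro v hv ⟨i, s, t, hi, hst, hsm, _⟩
        have := not_cop_zero hst
        omega
      rw [hemp, Finset.card_empty]
      push_cast
      positivity
    · have hmr : (1 : ℝ) ≤ m := by exact_mod_cast hpos
      have h2 : m / 2 < m := Nat.div_lt_self hpos (by norm_num)
      have hle : ((m / 2 : ℕ) : ℝ) ≤ (m : ℝ) / 2 := Nat.cast_div_le
      have hih := ih (m / 2) h2 (by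
        have : ((m / 2 : ℕ) : ℝ) ≤ m := by exact_mod_cast h2.le
        linarith)
      have hn := hnear Y (2 * K / (m * R)) m hY (by positivity) hpos hm
      have hsub : (S.MF Y).filter (fun v => ∃ i s t : ℕ, i < S.r ∧ Nat.Coprime s t ∧ s + t ≤ m ∧
          |S.u v - S.u (cn S.e i s t)| ≤ K / (((s + t : ℕ) : ℝ) * R)) ⊆
          (S.MF Y).filter (fun v => ∃ i s t : ℕ, i < S.r ∧ Nat.Coprime s t ∧ s + t ≤ m / 2 ∧
          |S.u v - S.u (cn S.e i s t)| ≤ K / (((s + t : ℕ) : ℝ) * R)) ∪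
          (S.MF Y).filter (fun v => ∃ i s t : ℕ, i < S.r ∧ Nat.Coprime s t ∧ s + t ≤ m ∧
          |S.u v - S.u (cn S.e i s t)| ≤ 2 * K / (m * R)) := by
        intro v hv
        rw [Finset.mem_filter] at hv
        obtain ⟨hv1, i, s, t, hi, hst, hsm, hd⟩ := hv
        rw [Finset.mem_union, Finset.mem_filter, Finset.mem_filter]
        rcases Nat.lt_or_ge (m / 2) (s + t) with h | h
        · right
          refine ⟨hv1, i, s, t, hi, hst, hsm, hd.trans ?_⟩
          have h3 : m + 1 ≤ 2 * (s + t) := by omega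
          have h4 : (m : ℝ) ≤ 2 * ((s + t : ℕ) : ℝ) := by
            have : ((m + 1 : ℕ) : ℝ) ≤ ((2 * (s + t) : ℕ) : ℝ) := by exact_mod_cast h3
            push_cast at this ⊢
            linarith
          have h5 : (0 : ℝ) < ((s + t : ℕ) : ℝ) := by
            have := not_cop_zero hst
            exact_mod_cast this
          rw [div_le_div_iff₀ (by positivity) (by positivity)]
          have h6 : K * (m * R) ≤ K * (2 * ((s + t : ℕ) : ℝ) * R) := by
            apply mul_le_mul_of_nonneg_left _ hK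
            exact mul_le_mul_of_nonneg_right h4 hR.le
          linarith
        · left
          exact ⟨hv1, i, s, t, hi, hst, h, hd⟩
      have h3 : (((S.MF Y).filter (fun v => ∃ i s t : ℕ, i < S.r ∧ Nat.Coprime s t ∧ s + t ≤ m ∧
          |S.u v - S.u (cn S.e i s t)| ≤ K / (((s + t : ℕ) : ℝ) * R))).card : ℝ) ≤
          (((S.MF Y).filter (fun v => ∃ i s t : ℕ, i < S.r ∧ Nat.Coprime s t ∧ s + t ≤ m / 2 ∧
          |S.u v - S.u (cn S.e i s t)| ≤ K / (((s + t : ℕ) : ℝ) * R))).card : ℝ) +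
          (((S.MF Y).filter (fun v => ∃ i s t : ℕ, i < S.r ∧ Nat.Coprime s t ∧ s + t ≤ m ∧
          |S.u v - S.u (cn S.e i s t)| ≤ 2 * K / (m * R))).card : ℝ) := by
        exact_mod_cast (Finset.card_le_card hsub).trans (Finset.card_union_le _ _)
      have h4 : 2 * K / (m * R) * Y * (m : ℝ) ^ 2 = 2 * (K * Y * m / R) := by
        field_simp
      rw [h4] at hn
      have hs0 : 0 ≤ Real.sqrt Y := Real.sqrt_nonneg _
      have h5 : K * Y * ((m / 2 : ℕ) : ℝ) / R ≤ (K * Y * m / R) / 2 := by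
        have : K * Y * ((m / 2 : ℕ) : ℝ) / R ≤ K * Y * ((m : ℝ) / 2) / R := by
          apply div_le_div_of_nonneg_right _ hR.le
          exact mul_le_mul_of_nonneg_left hle (by positivity)
        refine this.trans (le_of_eq ?_)
        ring
      have h6 : Real.sqrt Y * ((m / 2 : ℕ) : ℝ) ≤ (Real.sqrt Y * m) / 2 := by
        have := mul_le_mul_of_nonneg_left hle hs0
        linarith
      have h7 : (((m / 2 : ℕ) : ℝ)) ^ 2 ≤ (m : ℝ) ^ 2 / 2 := by
        have h0 : (0 : ℝ) ≤ ((m / 2 : ℕ) : ℝ) := Nat.cast_nonneg _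
        nlinarith
      have h8 : 4 * C0 * (K * Y * ((m / 2 : ℕ) : ℝ) / R + Real.sqrt Y * ((m / 2 : ℕ) : ℝ) +
          ((m / 2 : ℕ) : ℝ) ^ 2) ≤ 4 * C0 * ((K * Y * m / R) / 2 + (Real.sqrt Y * m) / 2 +
            (m : ℝ) ^ 2 / 2) := by
        apply mul_le_mul_of_nonneg_left _ (by linarith)
        linarith
      have hA : 0 ≤ K * Y * m / R := by positivity
      have hB : 0 ≤ Real.sqrt Y * m := by positivity
      have hC : 0 ≤ (m : ℝ) ^ 2 := by positivity
      nlinarith [mul_nonneg (by linarith : (0 : ℝ) ≤ C0) hB, mul_nonneg (by linarith : (0 : ℝ) ≤ C0) hC]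

end

end Pool.Agent.ZO
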