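import Pool.Agent.Lib_helper1.ZO.B
import Pool.Agent.Lib_helper1.ZO.C
import Pool.Agent.Lib_helper39.MQX.FAA

/-! # ZO: one element of the window and its chain (helper1) -/

set_option autoImplicit false

namespace Pool.Agent.ZO

open Finset Pool.Agent.MQ

section
variable {b c : ℤ} (S : Sys b c)

theorem ht_pos {i s t s' t' : ℕ} (h : 0 < dt (cn S.e i s t) (cn S.e i s' t')) :
    1 ≤ s + t ∧ 1 ≤ s' + t' := by
  constructor
  · by_contra hc
    have h1 : s = 0 := by omega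
    have h2 : t = 0 := by omega
    rw [dt_cn, h1, h2] at h
    simp at h
  · by_contra hc
    have h1 : s' = 0 := by omega
    have h2 : t' = 0 := by omega
    rw [dt_cn, h1, h2] at h
    simp at h

theorem u_ord {i s t s' t' : ℕ} (hi : i < S.r)
    (hd : 0 < dt (cn S.e i s t) (cn S.e i s' t')) :
    S.u (cn S.e i s t) < S.u (cn S.e i s' t') := by
  obtain ⟨C, hC, hCn⟩ := cone_nm S
  obtain ⟨h1, h2⟩ := ht_pos S hd
  have hpos : ∀ s t : ℕ, 1 ≤ s + t → (0 : ℝ) < nm b c (cn S.e i s t) := by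
    intro s t hst
    refine lt_of_lt_of_le ?_ (hCn i s t hi).1
    have : (1 : ℝ) ≤ ((s + t : ℕ) : ℝ) := by exact_mod_cast hst
    positivity
  have h := (S.u_det i s t s' t' hi hd).1
  have h3 : (0 : ℝ) < dt (cn S.e i s t) (cn S.e i s' t') := by exact_mod_cast hd
  have h4 : 0 < S.c₁ * (dt (cn S.e i s t) (cn S.e i s' t') : ℝ) /
      Real.sqrt (nm b c (cn S.e i s t) * nm b c (cn S.e i s' t')) := by
    have := hpos s t h1
    have := hpos s' t' h2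
    have := S.c₁_pos
    positivity
  have h5 : 0 < uu S.ur (cn S.e i s' t') - uu S.ur (cn S.e i s t) := lt_of_lt_of_le h4 h
  unfold Sys.u
  linarith

theorem u_up : ∃ K : ℝ, 1 ≤ K ∧ ∀ {i s t s' t' : ℕ}, i < S.r →
    0 < dt (cn S.e i s t) (cn S.e i s' t') →
    S.u (cn S.e i s' t') - S.u (cn S.e i s t) ≤
      K * dt (cn S.e i s t) (cn S.e i s' t') / (((s + t : ℕ) : ℝ) * ((s' + t' : ℕ) : ℝ)) := by
  obtain ⟨C, hC, hCn⟩ := cone_nm S
  refine ⟨max 1 (S.c₂ * C), le_max_left _ _, ?_⟩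
  intro i s t s' t' hi hd
  obtain ⟨h1, h2⟩ := ht_pos S hd
  have hs : (1 : ℝ) ≤ ((s + t : ℕ) : ℝ) := by exact_mod_cast h1
  have hs' : (1 : ℝ) ≤ ((s' + t' : ℕ) : ℝ) := by exact_mod_cast h2
  have h := (S.u_det i s t s' t' hi hd).2
  have h3 : (0 : ℝ) < dt (cn S.e i s t) (cn S.e i s' t') := by exact_mod_cast hd
  have n1 := (hCn i s t hi).1
  have n2 := (hCn i s' t' hi).1
  have h4 : ((s + t : ℕ) : ℝ) * ((s' + t' : ℕ) : ℝ) / C ≤
      Real.sqrt (nm b c (cn S.e i s t) * nm b c (cn S.e i s' t')) := by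
    apply Real.le_sqrt_of_sq_le
    have h5 : (((s + t : ℕ) : ℝ) * ((s' + t' : ℕ) : ℝ) / C) ^ 2 =
        (((s + t : ℕ) : ℝ) ^ 2 / C) * (((s' + t' : ℕ) : ℝ) ^ 2 / C) := by
      field_simp
    rw [h5]
    exact mul_le_mul n1 n2 (by positivity) (le_trans (by positivity) n1)
  have hc2 := S.c₂_pos
  have h6 : S.c₂ * (dt (cn S.e i s t) (cn S.e i s' t') : ℝ) /
      Real.sqrt (nm b c (cn S.e i s t) * nm b c (cn S.e i s' t')) ≤
      S.c₂ * (dt (cn S.e i s t) (cn S.e i s' t') : ℝ) /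
        (((s + t : ℕ) : ℝ) * ((s' + t' : ℕ) : ℝ) / C) := by
    apply div_le_div_of_nonneg_left (by positivity) (by positivity) h4
  have h7 : S.c₂ * (dt (cn S.e i s t) (cn S.e i s' t') : ℝ) /
        (((s + t : ℕ) : ℝ) * ((s' + t' : ℕ) : ℝ) / C) =
      (S.c₂ * C) * dt (cn S.e i s t) (cn S.e i s' t') /
        (((s + t : ℕ) : ℝ) * ((s' + t' : ℕ) : ℝ)) := by
    field_simp
  have h8 : (S.c₂ * C) * dt (cn S.e i s t) (cn S.e i s' t') /
        (((s + t : ℕ) : ℝ) * ((s' + t' : ℕ) : ℝ)) ≤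
      max 1 (S.c₂ * C) * dt (cn S.e i s t) (cn S.e i s' t') /
        (((s + t : ℕ) : ℝ) * ((s' + t' : ℕ) : ℝ)) := by
    apply div_le_div_of_nonneg_right _ (by positivity)
    exact mul_le_mul_of_nonneg_right (le_max_right _ _) h3.le
  unfold Sys.u
  linarith

theorem cop_of_pm {i s t : ℕ} (h : Pm (cn S.e i s t)) : Nat.Coprime s t := by
  unfold Pm cn at h
  have h1 : (Nat.gcd s t : ℤ) ∣ Int.gcd ((s : ℤ) * (S.e i).1 + t * (S.e (i + 1)).1)
      ((s : ℤ) * (S.e i).2 + t * (S.e (i + 1)).2) := by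
    apply Int.dvd_coe_gcd
    · exact dvd_add (Dvd.dvd.mul_right (by exact_mod_cast Nat.gcd_dvd_left s t) _)
        (Dvd.dvd.mul_right (by exact_mod_cast Nat.gcd_dvd_right s t) _)
    · exact dvd_add (Dvd.dvd.mul_right (by exact_mod_cast Nat.gcd_dvd_left s t) _)
        (Dvd.dvd.mul_right (by exact_mod_cast Nat.gcd_dvd_right s t) _)
  simp only at h
  rw [h] at h1
  have h2 : Nat.gcd s t ∣ 1 := by exact_mod_cast h1
  exact Nat.dvd_one.1 h2

/-- the three cases for an element of large height -/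
theorem in_cell {ρ i s t : ℕ} (hρ : 1 ≤ ρ) (hi : i < S.r) (hst : Nat.Coprime s t)
    (h : ρ < s + t) : ∃ p q p' q' α β : ℕ, S.Cell ρ i p q p' q' ∧ 1 ≤ α ∧ 1 ≤ β ∧
      Nat.Coprime α β ∧ Nat.Coprime p q ∧ Nat.Coprime p' q' ∧
      s = α * p + β * p' ∧ t = α * q + β * q' ∧
      0 < dt (cn S.e i p q) (cn S.e i s t) ∧ 0 < dt (cn S.e i s t) (cn S.e i p' q') := by
  obtain ⟨p, q, p', q', α, β, hc, hα, hβ, e1, e2⟩ := cell_vec S hρ hi hst h
  have hd := hc.2.1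
  have hcop : Nat.Coprime α β := by
    have h1 : Nat.gcd α β ∣ s := by
      rw [e1]
      exact dvd_add (Dvd.dvd.mul_right (Nat.gcd_dvd_left α β) _)
        (Dvd.dvd.mul_right (Nat.gcd_dvd_right α β) _)
    have h2 : Nat.gcd α β ∣ t := by
      rw [e2]
      exact dvd_add (Dvd.dvd.mul_right (Nat.gcd_dvd_left α β) _)
        (Dvd.dvd.mul_right (Nat.gcd_dvd_right α β) _)
    have h3 := Nat.dvd_gcd h1 h2
    rw [hst] at h3
    exact Nat.dvd_one.1 h3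
  have hpq : Nat.Coprime p q := by
    have h1 : ((Nat.gcd p q : ℕ) : ℤ) ∣ 1 := by
      rw [← hd]
      apply dvd_sub
      · exact Dvd.dvd.mul_right (by exact_mod_cast Nat.gcd_dvd_left p q) _
      · exact Dvd.dvd.mul_right (by exact_mod_cast Nat.gcd_dvd_right p q) _
    exact Nat.dvd_one.1 (by exact_mod_cast h1)
  have hpq' : Nat.Coprime p' q' := by
    have h1 : ((Nat.gcd p' q' : ℕ) : ℤ) ∣ 1 := by
      rw [← hd]
      apply dvd_sub
      · exact Dvd.dvd.mul_left (by exact_mod_cast Nat.gcd_dvd_right p' q') _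
      · exact Dvd.dvd.mul_left (by exact_mod_cast Nat.gcd_dvd_left p' q') _
    exact Nat.dvd_one.1 (by exact_mod_cast h1)
  refine ⟨p, q, p', q', α, β, hc, hα, hβ, hcop, hpq, hpq', e1, e2, ?_, ?_⟩
  · rw [dt_cn, S.e_det i hi, mul_one, e1, e2]
    have : (p : ℤ) * ((α * q + β * q' : ℕ) : ℤ) - q * ((α * p + β * p' : ℕ) : ℤ) = β := by
      push_cast
      linear_combination (β : ℤ) * hd
    rw [this]
    exact_mod_cast hβ
  · rw [dt_cn, S.e_det i hi, mul_one, e1, e2]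
    have : ((α * p + β * p' : ℕ) : ℤ) * q' - ((α * q + β * q' : ℕ) : ℤ) * p' = α := by
      push_cast
      linear_combination (α : ℤ) * hd
    rw [this]
    exact_mod_cast hα

end

/-- the exceptional edge below an element of a balanced cell -/
theorem bad_edge (S : Sys 0 1) {h : ℕ → ℤ} (hh : Sgn h) {C1 : ℝ} (hC1 : 1 ≤ C1)
    (hCn : ∀ i s t : ℕ, i < S.r → ((s + t : ℕ) : ℝ) ^ 2 / C1 ≤ nm 0 1 (cn S.e i s t) ∧
      (nm 0 1 (cn S.e i s t) : ℝ) ≤ C1 * ((s + t : ℕ) : ℝ) ^ 2)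
    {i p q p' q' α β m : ℕ} (hi : i < S.r) (hd : (p : ℤ) * q' - q * p' = 1) (hα : 1 ≤ α)
    (hβ : 1 ≤ β) (hc : Nat.Coprime α β) (hm : m < p + q) (hm' : m < p' + q')
    (hg : gg 0 1 h (cn S.e i (α * p + β * p') (α * q + β * q')) ≠ gg 0 1 h (cn S.e i p q)) :
    ∃ w w' : El, ∃ α' β' a k : ℕ, dt w w' = 1 ∧ nm 0 1 w = a ∧ bl 0 1 w w' = k ∧
      cn S.e i (α * p + β * p') (α * q + β * q') =
        ((α' : ℤ) * w.1 + β' * w'.1, (α' : ℤ) * w.2 + β' * w'.2) ∧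
      ((m + 1 : ℕ) : ℝ) ^ 2 / C1 ≤ a ∧
      (a : ℝ) ≤ C1 * ((α * p + β * p' + (α * q + β * q') : ℕ) : ℝ) ^ 2 ∧
      (((m + 1 : ℕ) : ℝ) ^ 2 / C1) ^ 2 ≤ (k : ℝ) ^ 2 + 1 ∧
      (k : ℝ) ≤ C1 * ((α * p + β * p' + (α * q + β * q') : ℕ) : ℝ) ^ 2 ∧
      a ∣ k ^ 2 + 1 ∧ h a ≠ h ((k ^ 2 + 1) / a) ∧
      (α' : ℝ) * (m + 1) ≤ ((α * p + β * p' + (α * q + β * q') : ℕ) : ℝ) ∧
      (β' : ℝ) * (m + 1) ≤ ((α * p + β * p' + (α * q + β * q') : ℕ) : ℝ) := by
  obtain ⟨x, y, x', y', A, B, A', B', α', β', ex, ey, ex', ey', hxy, hne, e1, e2, l1, l2⟩ :=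
    sign_path S hh hi hd hα hβ hc hg
  set M : ℕ := α * p + β * p' + (α * q + β * q') with hM
  have hx1 : m + 1 ≤ x + y := by
    have h1 : A ≠ 0 ∨ B ≠ 0 := by
      by_contra hcon
      push Not at hcon
      rw [hcon.1, hcon.2] at ex ey
      rw [ex, ey] at hxy
      simp at hxy
    have h2 : x + y = A * (p + q) + B * (p' + q') := by rw [ex, ey]; ring
    rw [h2]
    rcases h1 with h1 | h1
    · have : 1 ≤ A := Nat.one_le_iff_ne_zero.2 h1
      nlinarith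
    · have : 1 ≤ B := Nat.one_le_iff_ne_zero.2 h1
      nlinarith
  have hx2 : m + 1 ≤ x' + y' := by
    have h1 : A' ≠ 0 ∨ B' ≠ 0 := by
      by_contra hcon
      push Not at hcon
      rw [hcon.1, hcon.2] at ex' ey'
      rw [ex', ey'] at hxy
      simp at hxy
    have h2 : x' + y' = A' * (p + q) + B' * (p' + q') := by rw [ex', ey']; ring
    rw [h2]
    rcases h1 with h1 | h1
    · have : 1 ≤ A' := Nat.one_le_iff_ne_zero.2 h1
      nlinarith
    · have : 1 ≤ B' := Nat.one_le_iff_ne_zero.2 h1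
      nlinarith
  have hb0 := acute S hi x y x' y'
  have hn := hCn i x y hi
  have hn' := hCn i x' y' hi
  have hm1 : (1 : ℝ) ≤ ((m + 1 : ℕ) : ℝ) := by push_cast; linarith [(Nat.cast_nonneg m : (0 : ℝ) ≤ m)]
  have hx1r : ((m + 1 : ℕ) : ℝ) ≤ ((x + y : ℕ) : ℝ) := by exact_mod_cast hx1
  have hx2r : ((m + 1 : ℕ) : ℝ) ≤ ((x' + y' : ℕ) : ℝ) := by exact_mod_cast hx2
  have l1r : ((x + y : ℕ) : ℝ) ≤ M := by exact_mod_cast l1
  have l2r : ((x' + y' : ℕ) : ℝ) ≤ M := by exact_mod_cast l2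
  set w := cn S.e i x y with hw
  set w' := cn S.e i x' y' with hw'
  have lo1 : ((m + 1 : ℕ) : ℝ) ^ 2 / C1 ≤ nm 0 1 w := by
    refine le_trans ?_ hn.1
    apply div_le_div_of_nonneg_right _ (by linarith)
    exact pow_le_pow_left₀ (by linarith) hx1r 2
  have lo2 : ((m + 1 : ℕ) : ℝ) ^ 2 / C1 ≤ nm 0 1 w' := by
    refine le_trans ?_ hn'.1
    apply div_le_div_of_nonneg_right _ (by linarith)
    exact pow_le_pow_left₀ (by linarith) hx2r 2
  have up1 : (nm 0 1 w : ℝ) ≤ C1 * (M : ℝ) ^ 2 := by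
    refine hn.2.trans ?_
    apply mul_le_mul_of_nonneg_left _ (by linarith)
    exact pow_le_pow_left₀ (by linarith) l1r 2
  have up2 : (nm 0 1 w' : ℝ) ≤ C1 * (M : ℝ) ^ 2 := by
    refine hn'.2.trans ?_
    apply mul_le_mul_of_nonneg_left _ (by linarith)
    exact pow_le_pow_left₀ (by linarith) l2r 2
  have lo0 : (0 : ℝ) < ((m + 1 : ℕ) : ℝ) ^ 2 / C1 := by positivity
  have p1 : 0 < nm 0 1 w := by
    have : (0 : ℝ) < nm 0 1 w := lt_of_lt_of_le lo0 lo1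
    exact_mod_cast this
  have p2 : 0 < nm 0 1 w' := by
    have : (0 : ℝ) < nm 0 1 w' := lt_of_lt_of_le lo0 lo2
    exact_mod_cast this
  have hdt : dt w w' = 1 := by
    rw [hw, hw', dt_cn, S.e_det i hi, mul_one]
    exact hxy
  have hprod := nm_bl_one 0 1 w w' hdt
  rw [fv01] at hprod
  obtain ⟨a, ha⟩ := Int.eq_ofNat_of_zero_le p1.le
  obtain ⟨a', ha'⟩ := Int.eq_ofNat_of_zero_le p2.le
  obtain ⟨k, hk⟩ := Int.eq_ofNat_of_zero_le hb0
  have hk' : bl 0 1 w w' = k := hk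
  rw [ha, ha', hk'] at hprod
  have hprod' : a * a' = k ^ 2 + 1 := by exact_mod_cast hprod
  have ha0 : 0 < a := by rw [ha] at p1; exact_mod_cast p1
  have hdvd : a ∣ k ^ 2 + 1 := ⟨a', hprod'.symm⟩
  have hdiv : (k ^ 2 + 1) / a = a' := by
    rw [← hprod', Nat.mul_div_cancel_left _ ha0]
  have ra : (nm 0 1 w : ℝ) = a := by rw [ha]; simp
  have ra' : (nm 0 1 w' : ℝ) = a' := by rw [ha']; simp
  rw [ra] at lo1 up1
  rw [ra'] at lo2 up2
  have hprodr : (a : ℝ) * a' = (k : ℝ) ^ 2 + 1 := by exact_mod_cast hprod'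
  refine ⟨w, w', α', β', a, k, hdt, ha, hk', ?_, lo1, up1, ?_, ?_, hdvd, ?_, ?_, ?_⟩
  · rw [e1, e2, hw, hw']
    unfold cn
    push_cast
    ext <;> simp <;> ring
  · rw [← hprodr, _root_.sq]
    exact mul_le_mul lo1 lo2 lo0.le (by positivity)
  · have h1 : (k : ℝ) ^ 2 ≤ (C1 * (M : ℝ) ^ 2) ^ 2 := by
      have : (a : ℝ) * a' ≤ (C1 * (M : ℝ) ^ 2) * (C1 * (M : ℝ) ^ 2) :=
        mul_le_mul up1 up2 (Nat.cast_nonneg _) (by positivity)
      nlinarith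
    exact (pow_le_pow_iff_left₀ (Nat.cast_nonneg _) (by positivity) (by norm_num)).1 h1
  · rw [hdiv]
    unfold gg at hne
    rw [ha, ha'] at hne
    simpa using hne
  · have h1 : M = α' * (x + y) + β' * (x' + y') := by
      rw [hM, e1, e2]; ring
    have h2 : (M : ℝ) = α' * ((x + y : ℕ) : ℝ) + β' * ((x' + y' : ℕ) : ℝ) := by
      rw [h1]; push_cast; ring
    rw [h2]
    have h3 : (α' : ℝ) * (m + 1) ≤ α' * ((x + y : ℕ) : ℝ) := by
      apply mul_le_mul_of_nonneg_left _ (Nat.cast_nonneg _)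
      push_cast at hx1r ⊢
      exact hx1r
    have h4 : (0 : ℝ) ≤ β' * ((x' + y' : ℕ) : ℝ) := by positivity
    linarith
  · have h1 : M = α' * (x + y) + β' * (x' + y') := by
      rw [hM, e1, e2]; ring
    have h2 : (M : ℝ) = α' * ((x + y : ℕ) : ℝ) + β' * ((x' + y' : ℕ) : ℝ) := by
      rw [h1]; push_cast; ring
    rw [h2]
    have h3 : (β' : ℝ) * (m + 1) ≤ β' * ((x' + y' : ℕ) : ℝ) := by
      apply mul_le_mul_of_nonneg_left _ (Nat.cast_nonneg _)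
      push_cast at hx2r ⊢
      exact hx2r
    have h4 : (0 : ℝ) ≤ α' * ((x + y : ℕ) : ℝ) := by positivity
    linarith

end Pool.Agent.ZO
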