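import Pool.Agent.Lib_helper39.MQX.STF
import Pool.Agent.Lib_helper39.MQX.NEA
import Pool.Agent.Lib_helper39.MQX.FAB
import Pool.Agent.Lib_helper39.MQX.FEJ
import Pool.Agent.Lib_helper39.MQX.PAR
import Pool.Agent.Lib_helper39.MRG.Defs
import Pool.Agent.Lib_helper97.PATH.PT01

/-!
# The 0-1 law for `h(n²+1)`: definitions (helper1)

The two inputs are `PATH.PT01` (rigidity, Part I) and `MRGP` (the theorem of Matomaki and
Radziwill in the Gaussian integers for real multiplicative functions at the nonzero angular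
frequencies, helper39).
-/

set_option autoImplicit false

namespace Pool.Agent.ZO

open Finset Pool.Agent.MQ

/-- Matomaki-Radziwill at the nonzero frequencies -/
def MRGP : Prop := ∀ ε : ℝ, 0 < ε → ∃ H₀ Y₀ : ℝ, 1 ≤ H₀ ∧ ∀ H : ℝ, H₀ ≤ H → ∀ Y : ℝ, Y₀ ≤ Y →
  ∀ g : T2.G → ℝ, PENT.MRG.RG g →
  ∑ k ∈ (T2.Ks (Y / H)).erase 0, ‖∑ z ∈ T2.PB Y, (g z : ℂ) * T2.ang k z‖ ^ 2 ≤ ε * Y ^ 2

theorem cm_of_sgn {h : ℕ → ℤ} (hh : Sgn h) : PENT.CM h :=
  ⟨fun m n hm hn => hh.mul m n hm hn, fun n hn => hh.pm n hn⟩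

theorem sgn_of_cm {h : ℕ → ℤ} (hh : PENT.CM h) : Sgn h :=
  ⟨fun n hn => hh.val n hn, fun m n hm hn => hh.mul m n hm hn⟩

end Pool.Agent.ZO
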