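import Pool.Agent.Lib_helper1.ZO.D

/-! # ZO: chains (helper1) -/

set_option autoImplicit false

namespace Pool.Agent.ZO

open Finset Pool.Agent.MQ

theorem q3_card {h : ℕ → ℤ} {Y : ℝ} {K S0 : ℕ} {D : ℝ}
    (hAB : ∀ AB : Finset (ℕ × ℕ), (∀ y ∈ AB, Y / K ≤ y.1 ∧ (y.1 : ℝ) ≤ K * Y ∧ Y / K ≤ y.2 ∧
      (y.2 : ℝ) ≤ K * Y ∧ y.1 ∣ y.2 ^ 2 + 1 ∧ h y.1 ≠ h ((y.2 ^ 2 + 1) / y.1)) →
      (AB.card : ℝ) ≤ D)
    (Q : Finset El) (hQ : ∀ v ∈ Q, ∃ w w' : El, ∃ α' β' a k : ℕ, dt w w' = 1 ∧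
      nm 0 1 w = a ∧ 0 < a ∧ bl 0 1 w w' = k ∧
      v = ((α' : ℤ) * w.1 + β' * w'.1, (α' : ℤ) * w.2 + β' * w'.2) ∧
      Y / K ≤ a ∧ (a : ℝ) ≤ K * Y ∧ Y / K ≤ k ∧ (k : ℝ) ≤ K * Y ∧
      a ∣ k ^ 2 + 1 ∧ h a ≠ h ((k ^ 2 + 1) / a) ∧ α' < S0 ∧ β' < S0) :
    (Q.card : ℝ) ≤ 4 * (S0 : ℝ) ^ 2 * D := by
  classical
  choose! w w' α' β' a k hP using hQ
  let AB := Q.image (fun v => (a v, k v))
  let T := AB ×ˢ (range S0 ×ˢ range S0)
  have h1 : Q.card ≤ 4 * T.card := by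
    apply Finset.card_le_mul_card_image_of_maps_to
      (f := fun v => ((a v, k v), (α' v, β' v)))
    · intro v hv
      obtain ⟨_, _, _, _, _, _, _, _, _, _, _, ha, hb⟩ := hP v hv
      simp only [T, Finset.mem_product, Finset.mem_range]
      exact ⟨Finset.mem_image.2 ⟨v, hv, rfl⟩, ha, hb⟩
    · intro y _
      rcases Finset.eq_empty_or_nonempty (Q.filter (fun v => ((a v, k v), (α' v, β' v)) = y)) with
        he | ⟨v0, hv0⟩
      · rw [he, Finset.card_empty]; norm_num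
      · rw [Finset.mem_filter] at hv0
        obtain ⟨hv0, e0⟩ := hv0
        have hsub : Q.filter (fun v => ((a v, k v), (α' v, β' v)) = y) ⊆
            uns.image (fun ε => ml 0 1 ε v0) := by
          intro v hv
          rw [Finset.mem_filter] at hv
          obtain ⟨hv, e⟩ := hv
          rw [← e0] at e
          simp only [Prod.mk.injEq] at e
          obtain ⟨⟨ea, ek⟩, eα, eβ⟩ := e
          obtain ⟨d1, n1, a1, b1, v1, _⟩ := hP v hv
          obtain ⟨d0, n0, a0, b0, v0e, _⟩ := hP v0 hv0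
          obtain ⟨ε, hε, g1, g2⟩ := unit_of_eq d0 d1 (by rw [n0, n1, ea])
            (by rw [n0]; exact_mod_cast a0) (by rw [b0, b1, ek])
          rw [Finset.mem_image]
          refine ⟨ε, hε, ?_⟩
          rw [v1, eα, eβ, g1, g2]
          conv_lhs => rw [v0e]
          simp only [ml01]
          ext <;> simp <;> ring
        exact (Finset.card_le_card hsub).trans (Finset.card_image_le.trans uns_card)
  have h2 := hAB AB (by
    intro y hy
    obtain ⟨v, hv, rfl⟩ := Finset.mem_image.1 hy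
    obtain ⟨_, _, _, _, _, q1, q2, q3, q4, q5, q6, _, _⟩ := hP v hv
    exact ⟨q1, q2, q3, q4, q5, q6⟩)
  have h3 : (Q.card : ℝ) ≤ 4 * (AB.card * ((S0 : ℝ) * S0)) := by
    have : T.card = AB.card * (S0 * S0) := by
      simp only [T, Finset.card_product, Finset.card_range]
    rw [this] at h1
    exact_mod_cast h1
  calc (Q.card : ℝ) ≤ 4 * (AB.card * ((S0 : ℝ) * S0)) := h3
    _ ≤ 4 * (D * ((S0 : ℝ) * S0)) := by
        apply mul_le_mul_of_nonneg_left _ (by norm_num)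
        exact mul_le_mul_of_nonneg_right h2 (by positivity)
    _ = 4 * (S0 : ℝ) ^ 2 * D := by ring

theorem chain (S : Sys 0 1) : ∃ C : ℝ, 1 ≤ C ∧
    ((∀ δ C1 : ℝ, 0 < δ → 1 ≤ C1 → PATH.PT01 δ C1) → ∀ H : ℝ, 2 ≤ H → ∀ δ : ℝ, 0 < δ →
    ∃ (c : ℝ) (N : ℕ), 0 < c ∧ ∃ Y₀ : ℝ, 1 ≤ Y₀ ∧ ∀ h : ℕ → ℤ, Sgn h →
    ∀ Y : ℝ, Y₀ ≤ Y → ∀ σ : ℤ, (σ = 1 ∨ σ = -1) →
    (((Icc 1 ⌊N * Y⌋₊).filter (fun n => h (n ^ 2 + 1) = σ)).card : ℝ) < c * Y →
    1 ≤ ⌊Real.sqrt Y / H⌋₊ ∧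
    ∀ F : ℝ → ℝ, (∀ i p q p' q' : ℕ, S.Cell ⌊Real.sqrt Y / H⌋₊ i p q p' q' → ∀ t : ℝ,
      S.u (cn S.e i p q) ≤ t → t < S.u (cn S.e i p' q') → F t = gg 0 1 h (cn S.e i p q)) →
    ∀ Q : Finset El, (∀ v ∈ Q, v ∈ S.MF Y ∧ Pm v ∧ F (S.u v) ≠ gg 0 1 h v) →
      (Q.card : ℝ) ≤ (C / H + δ) * Y) := by
  classical
  obtain ⟨C1, hC1, hCn⟩ := cone_nm S
  obtain ⟨K1, hK1, hup⟩ := u_up S
  obtain ⟨C2, hC2, hunb⟩ := unb_card S
  obtain ⟨C3, hC3, hnear⟩ := near_card S
  refine ⟨2 * C3 + C2 * (2 * K1 + 2), by nlinarith, ?_⟩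
  intro hPT H hH δ hδ
  have hH0 : 0 < H := by linarith
  -- constants
  set K : ℕ := ⌈8 * H ^ 4 * C1 + C1 ^ 2⌉₊ with hK
  have hKr : 8 * H ^ 4 * C1 + C1 ^ 2 ≤ K := Nat.le_ceil _
  have hH4 : 0 < H ^ 4 := by positivity
  have hK8 : 8 * H ^ 4 * C1 ≤ K := by nlinarith [sq_nonneg C1]
  have hKC : C1 ^ 2 ≤ K := by
    have : 0 ≤ 8 * H ^ 4 * C1 := by positivity
    linarith
  have hK1' : 1 ≤ K := by
    have : (1 : ℝ) ≤ K := le_trans (one_le_pow₀ hC1) hKC
    exact_mod_cast this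
  set S0 : ℕ := ⌈2 * H ^ 2 * C1⌉₊ + 1 with hS0
  have hS0r : 2 * H ^ 2 * C1 < S0 := by
    have := Nat.le_ceil (2 * H ^ 2 * C1)
    rw [hS0]; push_cast; linarith
  have hS0pos : (0 : ℝ) < S0 := lt_trans (by positivity) hS0r
  obtain ⟨c, N, hc, Y1, hY1, hAB⟩ := ab_card hPT K hK1' (δ := δ / (4 * (S0 : ℝ) ^ 2))
    (by positivity)
  refine ⟨c, N, hc, max Y1 (max (4 * H ^ 4) (8 * H ^ 4 * C1)), hY1.trans (le_max_left _ _), ?_⟩
  intro h hh Y hY σ hσ hE
  have hYY1 : Y1 ≤ Y := (le_max_left _ _).trans hY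
  have hY4 : 4 * H ^ 4 ≤ Y := ((le_max_left _ _).trans (le_max_right _ _)).trans hY
  have hY8 : 8 * H ^ 4 * C1 ≤ Y := ((le_max_right _ _).trans (le_max_right _ _)).trans hY
  have hY1' : 1 ≤ Y := hY1.trans hYY1
  have hY0 : 0 < Y := by linarith
  set sY := Real.sqrt Y with hsY
  have hsY2 : sY ^ 2 = Y := Real.sq_sqrt hY0.le
  have hsY0 : 0 ≤ sY := Real.sqrt_nonneg _
  have hsYH : 2 * H ^ 2 ≤ sY := by
    apply Real.le_sqrt_of_sq_le
    have : (2 * H ^ 2) ^ 2 = 4 * H ^ 4 := by ring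
    rw [this]; exact hY4
  have hsYpos : 0 < sY := lt_of_lt_of_le (by positivity) hsYH
  set ρ : ℕ := ⌊sY / H⌋₊ with hρ
  have hρle : (ρ : ℝ) ≤ sY / H := Nat.floor_le (by positivity)
  have hρlt : sY / H < ρ + 1 := Nat.lt_floor_add_one _
  have h2H : 2 * H ≤ sY / H := by
    rw [le_div_iff₀ hH0]
    nlinarith
  have hρ1 : 1 ≤ ρ := by
    rw [hρ]
    apply Nat.le_floor
    push_cast
    linarith
  have hρ1r : (1 : ℝ) ≤ ρ := by exact_mod_cast hρ1
  have hρH : H ≤ ρ := by linarith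
  refine ⟨hρ1, ?_⟩
  intro F hF Q hQ
  have hAB' := hAB h (cm_of_sgn hh) Y hYY1 σ hσ hE
  set m : ℕ := ⌊(ρ : ℝ) / H⌋₊ with hm
  have hmle : (m : ℝ) ≤ ρ / H := Nat.floor_le (by positivity)
  have hmlt : (ρ : ℝ) / H < m + 1 := Nat.lt_floor_add_one _
  have hmρ2 : (m : ℝ) ≤ ρ / 2 := by
    refine hmle.trans ?_
    exact div_le_div_of_nonneg_left (by linarith) (by norm_num) hH
  have hρsY : (ρ : ℝ) ≤ sY := by
    refine hρle.trans (div_le_self hsY0 (by linarith))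
  have hmsY : (m : ℝ) ≤ sY := by linarith
  -- m + 1 is large
  have hm1 : sY / (2 * H ^ 2) ≤ m + 1 := by
    have h1 : sY / (2 * H) ≤ ρ := by
      have h2 : sY / H = 2 * (sY / (2 * H)) := by field_simp
      have h3 : 1 ≤ sY / (2 * H) := by
        rw [le_div_iff₀ (by positivity)]
        nlinarith
      linarith
    have h2 : sY / (2 * H) / H ≤ ρ / H := div_le_div_of_nonneg_right h1 hH0.le
    have h3 : sY / (2 * H) / H = sY / (2 * H ^ 2) := by field_simp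
    linarith
  have hm2 : Y / (4 * H ^ 4) ≤ ((m : ℝ) + 1) ^ 2 := by
    have h1 := pow_le_pow_left₀ (by positivity) hm1 2
    have h2 : (sY / (2 * H ^ 2)) ^ 2 = Y / (4 * H ^ 4) := by
      rw [div_pow, hsY2]; congr 1; ring
    rwa [h2] at h1
  -- the three parts
  let Q1 := (S.MF Y).filter (fun v => ∃ i s t : ℕ, i < S.r ∧ Nat.Coprime s t ∧ s + t ≤ ρ ∧
      |S.u v - S.u (cn S.e i s t)| ≤ 0)
  let Q2 := (S.MF Y).filter (fun v => ∃ i s t : ℕ, i < S.r ∧ Nat.Coprime s t ∧ s + t ≤ m ∧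
      |S.u v - S.u (cn S.e i s t)| ≤ (2 * K1) / (((s + t : ℕ) : ℝ) * ρ))
  let P3 : El → Prop := fun v => ∃ w w' : El, ∃ α' β' a k : ℕ, dt w w' = 1 ∧
      nm 0 1 w = a ∧ 0 < a ∧ bl 0 1 w w' = k ∧
      v = ((α' : ℤ) * w.1 + β' * w'.1, (α' : ℤ) * w.2 + β' * w'.2) ∧
      Y / K ≤ a ∧ (a : ℝ) ≤ K * Y ∧ Y / K ≤ k ∧ (k : ℝ) ≤ K * Y ∧
      a ∣ k ^ 2 + 1 ∧ h a ≠ h ((k ^ 2 + 1) / a) ∧ α' < S0 ∧ β' < S0
  let Q3 := Q.filter P3
  have hsub : Q ⊆ Q1 ∪ Q2 ∪ Q3 := by
    intro v hv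
    obtain ⟨hvM, hvP, hvF⟩ := hQ v hv
    rw [Finset.mem_union, Finset.mem_union]
    have hvM' := (mem_MF S).1 hvM
    obtain ⟨i, s, t, hi, hs1, ev⟩ := (S.e_wd v).1 hvM'.1
    have hst : Nat.Coprime s t := cop_of_pm S (i := i) (by rw [← ev]; exact hvP)
    rcases Nat.lt_or_ge ρ (s + t) with hlt | hge
    · obtain ⟨p, q, p', q', α, β, hc, hα, hβ, hcop, hpq, hpq', e1, e2, d1, d2⟩ :=
        in_cell S hρ1 hi hst hlt
      have o1 := u_ord S hi d1
      have o2 := u_ord S hi d2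
      rw [← ev] at o1 o2
      have hdd : dt (cn S.e i p q) (cn S.e i p' q') = 1 := by
        rw [dt_cn, S.e_det i hi, mul_one]
        exact hc.2.1
      have hlen := hup hi (s := p) (t := q) (s' := p') (t' := q') (by rw [hdd]; norm_num)
      rw [hdd] at hlen
      have hsum : ρ < p + q + p' + q' := hc.2.2.2.2
      have hsumr : (ρ : ℝ) < ((p + q : ℕ) : ℝ) + ((p' + q' : ℕ) : ℝ) := by
        have : (ρ : ℝ) < ((p + q + p' + q' : ℕ) : ℝ) := by exact_mod_cast hsum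
        push_cast at this ⊢
        linarith
      rcases Nat.lt_or_ge m (p + q) with hl1 | hg1
      · rcases Nat.lt_or_ge m (p' + q') with hl2 | hg2
        · -- balanced
          right
          rw [Finset.mem_filter]
          refine ⟨hv, ?_⟩
          have hFv : F (S.u v) = gg 0 1 h (cn S.e i p q) :=
            hF i p q p' q' hc (S.u v) o1.le o2
          rw [hFv] at hvF
          have hne : gg 0 1 h (cn S.e i (α * p + β * p') (α * q + β * q')) ≠
              gg 0 1 h (cn S.e i p q) := by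
            rw [← e1, ← e2, ← ev]
            intro hcon
            exact hvF (by rw [hcon])
          obtain ⟨w, w', α', β', a, k, r1, r2, r3, r4, r5, r6, r7, r8, r9, r10, r11, r12⟩ :=
            bad_edge S hh hC1 hCn hi hc.2.1 hα hβ hcop hl1 hl2 hne
          rw [← e1, ← e2] at r4 r6 r8 r11 r12
          rw [← ev] at r4
          have hnv := (hCn i s t hi).1
          rw [← ev] at hnv
          have hst2 : ((s + t : ℕ) : ℝ) ^ 2 ≤ C1 * Y := by
            have h1 : ((s + t : ℕ) : ℝ) ^ 2 / C1 ≤ Y := hnv.trans hvM'.2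
            rw [div_le_iff₀ (by linarith)] at h1
            linarith
          have hupY : C1 * ((s + t : ℕ) : ℝ) ^ 2 ≤ K * Y := by
            calc C1 * ((s + t : ℕ) : ℝ) ^ 2 ≤ C1 * (C1 * Y) :=
                  mul_le_mul_of_nonneg_left hst2 (by linarith)
              _ = C1 ^ 2 * Y := by ring
              _ ≤ K * Y := mul_le_mul_of_nonneg_right hKC hY0.le
          have hlo : Y / (4 * H ^ 4 * C1) ≤ ((m + 1 : ℕ) : ℝ) ^ 2 / C1 := by
            push_cast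
            rw [← div_div]
            exact div_le_div_of_nonneg_right hm2 (by linarith)
          have hloK : Y / K ≤ Y / (8 * H ^ 4 * C1) :=
            div_le_div_of_nonneg_left hY0.le (by positivity) hK8
          have hlo84 : Y / (4 * H ^ 4 * C1) = 2 * (Y / (8 * H ^ 4 * C1)) := by
            field_simp; ring
          have hlo8 : 1 ≤ Y / (8 * H ^ 4 * C1) := by
            rw [le_div_iff₀ (by positivity)]; linarith
          have hS0b : ∀ γ : ℕ, (γ : ℝ) * (m + 1) ≤ ((s + t : ℕ) : ℝ) → γ < S0 := by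
            intro γ hγ
            by_contra hcon
            push Not at hcon
            have h1 : (S0 : ℝ) ≤ γ := by exact_mod_cast hcon
            have h2 : (γ : ℝ) * (sY / (2 * H ^ 2)) ≤ ((s + t : ℕ) : ℝ) :=
              le_trans (mul_le_mul_of_nonneg_left hm1 (Nat.cast_nonneg _)) hγ
            have h3 : 2 * H ^ 2 * C1 * (sY / (2 * H ^ 2)) < (γ : ℝ) * (sY / (2 * H ^ 2)) := by
              apply mul_lt_mul_of_pos_right (lt_of_lt_of_le hS0r h1) (by positivity)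
            have h4 : 2 * H ^ 2 * C1 * (sY / (2 * H ^ 2)) = C1 * sY := by field_simp
            rw [h4] at h3
            have h5 : C1 * sY < ((s + t : ℕ) : ℝ) := lt_of_lt_of_le h3 h2
            have h6 : (C1 * sY) ^ 2 < ((s + t : ℕ) : ℝ) ^ 2 :=
              pow_lt_pow_left₀ h5 (by positivity) (by norm_num)
            have h7 : (C1 * sY) ^ 2 = C1 * (C1 * Y) := by rw [mul_pow, hsY2]; ring
            rw [h7] at h6
            have h8 : C1 * Y ≤ C1 * (C1 * Y) := by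
              have : 0 ≤ C1 * Y := by positivity
              nlinarith
            linarith
          refine ⟨w, w', α', β', a, k, r1, r2, ?_, r3, r4, ?_, r6.trans hupY, ?_,
            r8.trans hupY, r9, r10, hS0b α' r11, hS0b β' r12⟩
          · have h1 : (0 : ℝ) < a := lt_of_lt_of_le (by positivity) r5
            exact_mod_cast h1
          · linarith
          · have h1 : (2 * (Y / (8 * H ^ 4 * C1))) ^ 2 ≤ (k : ℝ) ^ 2 + 1 := by
              rw [← hlo84]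
              exact le_trans (pow_le_pow_left₀ (by positivity) hlo 2) r7
            set y8 := Y / (8 * H ^ 4 * C1) with hy8
            have h2 : y8 ^ 2 ≤ (k : ℝ) ^ 2 := by nlinarith
            have h3 : y8 ≤ k := by
              exact (pow_le_pow_iff_left₀ (by linarith) (Nat.cast_nonneg _) (by norm_num)).1 h2
            linarith
        · left; right
          rw [Finset.mem_filter]
          refine ⟨hvM, i, p', q', hi, hpq', hg2, ?_⟩
          have h1 : |S.u v - S.u (cn S.e i p' q')| = S.u (cn S.e i p' q') - S.u v := by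
            rw [abs_sub_comm, abs_of_pos (by linarith)]
          rw [h1]
          have hg2r : ((p' + q' : ℕ) : ℝ) ≤ m := by exact_mod_cast hg2
          have hpos' : (0 : ℝ) < ((p' + q' : ℕ) : ℝ) := by
            exact_mod_cast (ht_pos S (i := i) (s := p) (t := q) (s' := p') (t' := q')
              (by rw [hdd]; norm_num)).2
          have hbig : (ρ : ℝ) / 2 ≤ ((p + q : ℕ) : ℝ) := by linarith
          have hρ0 : (0 : ℝ) < ρ := by linarith
          have hbp : (0 : ℝ) < ((p + q : ℕ) : ℝ) := by linarith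
          have h2 : K1 * ((1 : ℤ) : ℝ) / (((p + q : ℕ) : ℝ) * ((p' + q' : ℕ) : ℝ)) ≤
              2 * K1 / (((p' + q' : ℕ) : ℝ) * ρ) := by
            rw [div_le_div_iff₀ (by positivity) (by positivity)]
            push_cast at hbig hpos' ⊢
            have : K1 * ((p' : ℝ) + q') * ρ ≤ K1 * ((p' : ℝ) + q') * (2 * (p + q)) := by
              apply mul_le_mul_of_nonneg_left (by linarith) (by positivity)
            nlinarith
          linarith
      · left; right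
        rw [Finset.mem_filter]
        refine ⟨hvM, i, p, q, hi, hpq, hg1, ?_⟩
        have h1 : |S.u v - S.u (cn S.e i p q)| = S.u v - S.u (cn S.e i p q) :=
          abs_of_pos (by linarith)
        rw [h1]
        have hg2r : ((p + q : ℕ) : ℝ) ≤ m := by exact_mod_cast hg1
        have hpos' : (0 : ℝ) < ((p + q : ℕ) : ℝ) := by
          exact_mod_cast (ht_pos S (i := i) (s := p) (t := q) (s' := p') (t' := q')
            (by rw [hdd]; norm_num)).1
        have hbig : (ρ : ℝ) / 2 ≤ ((p' + q' : ℕ) : ℝ) := by linarith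
        have hρ0 : (0 : ℝ) < ρ := by linarith
        have hbp : (0 : ℝ) < ((p' + q' : ℕ) : ℝ) := by linarith
        have h2 : K1 * ((1 : ℤ) : ℝ) / (((p + q : ℕ) : ℝ) * ((p' + q' : ℕ) : ℝ)) ≤
            2 * K1 / (((p + q : ℕ) : ℝ) * ρ) := by
          rw [div_le_div_iff₀ (by positivity) (by positivity)]
          push_cast at hbig hpos' ⊢
          have : K1 * ((p : ℝ) + q) * ρ ≤ K1 * ((p : ℝ) + q) * (2 * (p' + q')) := by
            apply mul_le_mul_of_nonneg_left (by linarith) (by positivity)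
          nlinarith
        linarith
    · left; left
      rw [Finset.mem_filter]
      refine ⟨hvM, i, s, t, hi, hst, hge, ?_⟩
      rw [ev]; simp
  have hc1 : (Q1.card : ℝ) ≤ C3 * (0 * Y * (ρ : ℝ) ^ 2 + sY * ρ + (ρ : ℝ) ^ 2) :=
    hnear Y 0 ρ hY1' le_rfl hρ1 hρsY
  have hc2 : (Q2.card : ℝ) ≤ C2 * (2 * K1 * Y * m / ρ + sY * m + (m : ℝ) ^ 2) :=
    hunb Y (2 * K1) ρ hY1' (by linarith) (by linarith) m hmsY
  have hc3 : (Q3.card : ℝ) ≤ 4 * (S0 : ℝ) ^ 2 * (δ / (4 * (S0 : ℝ) ^ 2) * Y) :=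
    q3_card hAB' Q3 (fun v hv => (Finset.mem_filter.1 hv).2)
  have h1 : (Q.card : ℝ) ≤ Q1.card + Q2.card + Q3.card := by
    have h2 : Q.card ≤ Q1.card + Q2.card + Q3.card := by
      refine (Finset.card_le_card hsub).trans ?_
      refine (Finset.card_union_le _ _).trans ?_
      exact Nat.add_le_add_right (Finset.card_union_le _ _) _
    exact_mod_cast h2
  have e1 : sY * ρ ≤ Y / H := by
    calc sY * ρ ≤ sY * (sY / H) := mul_le_mul_of_nonneg_left hρle hsY0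
      _ = sY ^ 2 / H := by ring
      _ = Y / H := by rw [hsY2]
  have e2 : (ρ : ℝ) ^ 2 ≤ Y / H := by
    calc (ρ : ℝ) ^ 2 = ρ * ρ := by ring
      _ ≤ sY * ρ := mul_le_mul_of_nonneg_right hρsY (by linarith)
      _ ≤ Y / H := e1
  have e3 : 2 * K1 * Y * m / ρ ≤ 2 * K1 * (Y / H) := by
    rw [div_le_iff₀ (by linarith)]
    have : 2 * K1 * Y * m ≤ 2 * K1 * Y * (ρ / H) :=
      mul_le_mul_of_nonneg_left hmle (by positivity)
    refine this.trans (le_of_eq ?_)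
    ring
  have e4 : sY * m ≤ Y / H := by
    calc sY * m ≤ sY * ρ := mul_le_mul_of_nonneg_left (by linarith) hsY0
      _ ≤ Y / H := e1
  have e5 : (m : ℝ) ^ 2 ≤ Y / H := by
    have h0 : (0 : ℝ) ≤ m := Nat.cast_nonneg _
    calc (m : ℝ) ^ 2 ≤ (ρ : ℝ) ^ 2 := pow_le_pow_left₀ h0 (by linarith) 2
      _ ≤ Y / H := e2
  have e6 : 4 * (S0 : ℝ) ^ 2 * (δ / (4 * (S0 : ℝ) ^ 2) * Y) = δ * Y := by field_simp
  rw [e6] at hc3
  have e7 : C3 * (0 * Y * (ρ : ℝ) ^ 2 + sY * ρ + (ρ : ℝ) ^ 2) ≤ C3 * (2 * (Y / H)) := by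
    apply mul_le_mul_of_nonneg_left _ (by linarith)
    linarith
  have e8 : C2 * (2 * K1 * Y * m / ρ + sY * m + (m : ℝ) ^ 2) ≤
      C2 * (2 * K1 * (Y / H) + 2 * (Y / H)) := by
    apply mul_le_mul_of_nonneg_left _ (by linarith)
    linarith
  have e9 : ((2 * C3 + C2 * (2 * K1 + 2)) / H + δ) * Y =
      C3 * (2 * (Y / H)) + C2 * (2 * K1 * (Y / H) + 2 * (Y / H)) + δ * Y := by ring
  rw [e9]
  linarith

end Pool.Agent.ZO
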