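import Pool.Agent.Lib_helper1.ZO.A
import Pool.Agent.Lib_helper10.T2F.BAS

/-! # ZO: from the window to the Gaussian integers (helper1) -/

set_option autoImplicit false

namespace Pool.Agent.ZO

open Finset Pool.Agent.MQ Filter Topology

theorem ur_eq (S : Sys 0 1) (t : ℝ) : S.ur t = 1 / 2 - Real.arctan t / Real.pi := by
  set κ := S.κ with hκ
  have hder : ∀ t, HasDerivAt (fun t => S.ur t + κ * Real.arctan t) 0 t := by
    intro t
    have h1 := S.der t (Or.inl dsc01)
    have h2 := (Real.hasDerivAt_arctan t).const_mul κ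
    have h3 := h1.add h2
    have e : -S.κ / (t ^ 2 + ((0 : ℤ) : ℝ) * t + ((1 : ℤ) : ℝ)) + κ * (1 / (1 + t ^ 2)) = 0 := by
      have e0 : t ^ 2 + ((0 : ℤ) : ℝ) * t + ((1 : ℤ) : ℝ) = 1 + t ^ 2 := by push_cast; ring
      have e1 : (1 + t ^ 2) ≠ 0 := by positivity
      rw [e0, ← hκ]
      field_simp
      ring
    rw [e] at h3
    exact h3
  have hconst : ∀ x y, (fun t => S.ur t + κ * Real.arctan t) x =
      (fun t => S.ur t + κ * Real.arctan t) y := by
    apply is_const_of_deriv_eq_zero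
    · exact fun t => (hder t).differentiableAt
    · exact fun t => (hder t).deriv
  have htop : Tendsto (fun t => S.ur t + κ * Real.arctan t) atTop (𝓝 (0 + κ * (Real.pi / 2))) :=
    S.top.add ((Real.tendsto_arctan_atTop.mono_right nhdsWithin_le_nhds).const_mul κ)
  have hbot : Tendsto (fun t => S.ur t + κ * Real.arctan t) atBot
      (𝓝 (1 + κ * (-(Real.pi / 2)))) :=
    (S.botN dsc01).add ((Real.tendsto_arctan_atBot.mono_right nhdsWithin_le_nhds).const_mul κ)
  have e1 : (fun t => S.ur t + κ * Real.arctan t) = fun _ => S.ur 0 + κ * Real.arctan 0 := by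
    funext t
    exact hconst t 0
  rw [e1] at htop hbot
  have h1 := tendsto_nhds_unique htop tendsto_const_nhds
  have h2 := tendsto_nhds_unique hbot tendsto_const_nhds
  have hpi := Real.pi_pos
  have h3 : κ * Real.pi = 1 := by linarith
  have h4 : κ = 1 / Real.pi := by field_simp; linarith
  have h5 := hconst t 0
  simp only at h5
  have h6 : S.ur t = 0 + κ * (Real.pi / 2) - κ * Real.arctan t := by linarith
  rw [h6, h4]
  field_simp
  ring

/-- the Gaussian integer of a vector -/
def tg (v : El) : T2.G := ⟨v.1, v.2⟩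

theorem nn_tg (v : El) : (T2.nn (tg v) : ℤ) = nm 0 1 v := by
  rw [T2.nn_cast, nm01]; rfl

theorem nn_tg' (v : El) : T2.nn (tg v) = (nm 0 1 v).natAbs := by
  rw [← nn_tg, Int.natAbs_natCast]

theorem ex_zpow (k : ℤ) (t : ℝ) : ex (k * t) = ex t ^ k := by
  unfold ex
  rw [← Complex.exp_int_mul]
  congr 1
  push_cast
  ring

theorem ex_u (S : Sys 0 1) {v : El} (hv : S.wd v) : ex (S.u v) = T2.ang 2 (tg v) := by
  have hpi := Real.pi_pos
  have hn := T2.nn_norm (tg v)
  have hc : ((tg v : T2.G) : ℂ) = (v.1 : ℂ) + v.2 * Complex.I := by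
    rw [GaussianInt.toComplex_def]; rfl
  rcases hv with ⟨h2, h1⟩ | ⟨h2, _⟩
  · have hu : S.u v = 0 := by
      unfold Sys.u uu
      rw [if_pos h2, if_pos h1]
    rw [hu]
    unfold T2.ang ex
    have h1r : (0 : ℝ) < v.1 := by exact_mod_cast h1
    have e : ((tg v : T2.G) : ℂ) = ((v.1 : ℝ) : ℂ) := by
      rw [hc, h2]; push_cast; ring
    rw [e, Complex.norm_real, Real.norm_of_nonneg h1r.le, div_self (by
      exact_mod_cast h1r.ne')]
    simp
  · have h2r : (0 : ℝ) < v.2 := by exact_mod_cast h2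
    have hu : S.u v = 1 / 2 - Real.arctan ((v.1 : ℝ) / v.2) / Real.pi := by
      unfold Sys.u uu
      rw [if_neg h2.ne', ur_eq]
    set x : ℝ := ((v.1 : ℤ) : ℝ) with hx
    set y : ℝ := ((v.2 : ℤ) : ℝ) with hy
    set θ := Real.arctan (x / y) with hθ
    set r : ℝ := ‖((tg v : T2.G) : ℂ)‖ with hr
    have hr2 : r ^ 2 = x ^ 2 + y ^ 2 := by
      rw [hr, ← T2.nn_norm]
      have := nn_tg v
      rw [nm01] at this
      have h3 : ((T2.nn (tg v) : ℤ) : ℝ) = ((v.1 ^ 2 + v.2 ^ 2 : ℤ) : ℝ) := by rw [this]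
      push_cast at h3
      rw [hx, hy]
      exact h3
    have hr0 : 0 < r := by
      have h0 : 0 ≤ r := norm_nonneg _
      have h3 : 0 < r ^ 2 := by rw [hr2]; positivity
      rcases h0.lt_or_eq with h | h
      · exact h
      · rw [← h] at h3; norm_num at h3
    have hsq : Real.sqrt (1 + (x / y) ^ 2) = r / y := by
      rw [Real.sqrt_eq_iff_mul_self_eq (by positivity) (by positivity)]
      field_simp
      rw [hr2]; ring
    have hcos : Real.cos θ = y / r := by
      rw [hθ, Real.cos_arctan, hsq, one_div_div]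
    have hsin : Real.sin θ = x / r := by
      rw [hθ, Real.sin_arctan, hsq]
      field_simp
    have hz : ((tg v : T2.G) : ℂ) / (r : ℂ) = (Real.sin θ : ℂ) + Real.cos θ * Complex.I := by
      rw [hc, hcos, hsin, hx, hy]
      push_cast
      ring
    unfold T2.ang ex
    rw [← hr, hz, hu]
    have e1 : 2 * (Real.pi : ℂ) * Complex.I * ((1 / 2 - θ / Real.pi : ℝ) : ℂ) =
        Real.pi * Complex.I + (((-(2 * θ) : ℝ)) : ℂ) * Complex.I := by
      have : (Real.pi : ℂ) ≠ 0 := by exact_mod_cast hpi.ne'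
      push_cast
      field_simp
      ring
    rw [e1, Complex.exp_add, Complex.exp_pi_mul_I, Complex.exp_mul_I, ← Complex.ofReal_cos,
      ← Complex.ofReal_sin, Real.cos_neg, Real.sin_neg, Real.cos_two_mul', Real.sin_two_mul]
    have e2 : ((Real.sin θ : ℂ) + Real.cos θ * Complex.I) ^ (2 : ℤ) =
        ((Real.sin θ : ℂ) + Real.cos θ * Complex.I) * ((Real.sin θ : ℂ) +
          Real.cos θ * Complex.I) := by
      rw [zpow_two]
    rw [e2]
    push_cast
    linear_combination (-(Complex.cos (θ : ℂ)) ^ 2) * Complex.I_sq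

theorem ang_two_mul (k : ℤ) (z : T2.G) : T2.ang (2 * k) z = T2.ang 2 z ^ k := by
  unfold T2.ang
  rw [zpow_mul]

theorem ex_ku (S : Sys 0 1) (k : ℤ) {v : El} (hv : S.wd v) :
    ex (k * S.u v) = T2.ang (2 * k) (tg v) := by
  rw [ex_zpow, ex_u S hv, ang_two_mul]

theorem tg_neg (v : El) : tg (-v.1, -v.2) = - tg v := by
  unfold tg
  ext <;> simp

open Classical in
/-- a sum over the primitive elements is twice the sum over the window -/
theorem sum_PB (S : Sys 0 1) (Y : ℝ) (f : T2.G → ℂ) (hf : ∀ z, f (-z) = f z) :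
    ∑ z ∈ T2.PB Y, f z = 2 * ∑ v ∈ (S.MF Y).filter Pm, f (tg v) := by
  set M := (S.MF Y).filter Pm with hM
  have hmem : ∀ v, v ∈ M ↔ (S.wd v ∧ (nm 0 1 v : ℝ) ≤ Y) ∧ Pm v := by
    intro v
    rw [hM, Finset.mem_filter, mem_MF S]
  have hPm : ∀ v : El, Pm v ↔ T2.Prm (tg v) := fun v => Iff.rfl
  have hinj : Function.Injective tg := by
    intro v w h
    have h1 := congrArg Zsqrtd.re h
    have h2 := congrArg Zsqrtd.im h
    exact Prod.ext h1 h2
  let A := M.image tg
  let B := M.image (fun v => tg (-v.1, -v.2))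
  have hinj2 : Function.Injective (fun v : El => tg (-v.1, -v.2)) := by
    intro v w h
    simp only [tg_neg] at h
    exact hinj (neg_injective h)
  have hnn : ∀ v : El, (T2.nn (tg v) : ℝ) = nm 0 1 v := by
    intro v
    have := nn_tg v
    exact_mod_cast this
  have hunion : T2.PB Y = A ∪ B := by
    ext z
    rw [Finset.mem_union, Finset.mem_image, Finset.mem_image, T2.mem_PB]
    constructor
    · rintro ⟨hz, hY⟩
      have hz0 : z.re ≠ 0 ∨ z.im ≠ 0 := by
        by_contra hcon
        push Not at hcon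
        unfold T2.Prm at hz
        rw [hcon.1, hcon.2] at hz
        simp at hz
      have hnz : (T2.nn (tg (-z.re, -z.im)) : ℝ) = T2.nn z := by
        have e2 : tg (-(z.re, z.im).1, -(z.re, z.im).2) = -tg (z.re, z.im) := tg_neg _
        have e : tg (z.re, z.im) = z := rfl
        simp only at e2
        rw [e2, e]
        unfold T2.nn
        rw [Zsqrtd.norm_neg]
      rcases lt_trichotomy z.im 0 with h | h | h
      · right
        refine ⟨(-z.re, -z.im), (hmem _).2 ⟨⟨Or.inr ⟨by simp only; omega, Or.inl dsc01⟩, ?_⟩, ?_⟩, ?_⟩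
        · rw [← hnn, hnz]
          exact hY
        · unfold Pm
          simp only [Int.gcd_neg, Int.neg_gcd]
          exact hz
        · simp only [neg_neg]; rfl
      · rw [h] at hz0
        rcases lt_or_gt_of_ne (a := z.re) (b := 0) (by tauto) with h' | h'
        · right
          refine ⟨(-z.re, -z.im), (hmem _).2 ⟨⟨Or.inl ⟨by simp only; omega, by simp only; omega⟩,
            ?_⟩, ?_⟩, ?_⟩
          · rw [← hnn, hnz]
            exact hY
          · unfold Pm
            simp only [Int.gcd_neg, Int.neg_gcd]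
            exact hz
          · simp only [neg_neg]; rfl
        · left
          refine ⟨(z.re, z.im), (hmem _).2 ⟨⟨Or.inl ⟨h, h'⟩, ?_⟩, hz⟩, rfl⟩
          rw [← hnn]
          exact hY
      · left
        refine ⟨(z.re, z.im), (hmem _).2 ⟨⟨Or.inr ⟨h, Or.inl dsc01⟩, ?_⟩, hz⟩, rfl⟩
        rw [← hnn]
        exact hY
    · rintro (⟨v, hv, rfl⟩ | ⟨v, hv, rfl⟩)
      · obtain ⟨⟨h1, h2⟩, h3⟩ := (hmem v).1 hv
        exact ⟨h3, by rw [hnn]; exact h2⟩
      · obtain ⟨⟨h1, h2⟩, h3⟩ := (hmem v).1 hv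
        refine ⟨?_, ?_⟩
        · unfold T2.Prm tg
          simp only [Int.gcd_neg, Int.neg_gcd]
          exact h3
        · rw [tg_neg]
          have : (T2.nn (-tg v) : ℝ) = T2.nn (tg v) := by
            unfold T2.nn
            rw [Zsqrtd.norm_neg]
          rw [this, hnn]
          exact h2
  have hdisj : Disjoint A B := by
    rw [Finset.disjoint_left]
    rintro z hzA hzB
    obtain ⟨v, hv, rfl⟩ := Finset.mem_image.1 hzA
    obtain ⟨w, hw, hvw⟩ := Finset.mem_image.1 hzB
    have e := hinj hvw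
    have h1 := ((hmem v).1 hv).1.1
    have h2 := ((hmem w).1 hw).1.1
    rw [← e] at h1
    unfold Sys.wd wdw at h1 h2
    simp only at h1
    rcases h1 with ⟨h1, h1'⟩ | ⟨h1, _⟩ <;> rcases h2 with ⟨h2, h2'⟩ | ⟨h2, _⟩ <;> omega
  rw [hunion, Finset.sum_union hdisj, Finset.sum_image (fun v _ w _ h => hinj h),
    Finset.sum_image (fun v _ w _ h => hinj2 h)]
  have : ∑ v ∈ M, f (tg (-v.1, -v.2)) = ∑ v ∈ M, f (tg v) := by
    apply Finset.sum_congr rfl
    intro v _
    rw [tg_neg, hf]
  rw [this]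
  ring

end Pool.Agent.ZO
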