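import Pool.Agent.Lib_helper1.ZO.E
import Pool.Agent.Lib_helper1.ZO.F
import Pool.Agent.Lib_helper39.MQX.STB

/-! # ZO: one sign on almost all primitive elements (helper1) -/

set_option autoImplicit false

namespace Pool.Agent.ZO

open Finset Pool.Agent.MQ

section
variable {b c : ℤ} (S : Sys b c)

open Classical in
theorem near_jump : ∃ C : ℝ, 1 ≤ C ∧ ∀ (Y η : ℝ) (ρ : ℕ), 1 ≤ Y → 0 ≤ η → 1 ≤ ρ →
    (ρ : ℝ) ≤ Real.sqrt Y → ∀ (F : ℝ → ℝ) (f : El → ℝ),
    (∀ i p q p' q' : ℕ, S.Cell ρ i p q p' q' → ∀ t : ℝ,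
      S.u (cn S.e i p q) ≤ t → t < S.u (cn S.e i p' q') → F t = f (cn S.e i p q)) →
    (((S.MF Y).filter (fun v => ∃ s : ℝ, |s - S.u v| ≤ η ∧ F s ≠ F (S.u v))).card : ℝ) ≤
      C * (η * Y * ρ ^ 2 + Real.sqrt Y * ρ + ρ ^ 2) := by
  obtain ⟨C, hC, hnear⟩ := near_card S
  refine ⟨C, hC, ?_⟩
  intro Y η ρ hY hη hρ hρY F f hF
  refine le_trans ?_ (hnear Y η ρ hY hη hρ hρY)
  norm_cast
  apply Finset.card_le_card
  intro v hv
  rw [Finset.mem_filter] at hv ⊢
  obtain ⟨hvM, s, hs, hne⟩ := hv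
  refine ⟨hvM, ?_⟩
  have hwd := ((mem_MF S).1 hvM).1
  obtain ⟨h0, h1⟩ := u_range S hwd
  obtain ⟨i, hi, hi1, hi2⟩ := stb_find S h0 h1
  obtain ⟨p, q, p', q', hc, c1, c2⟩ := cell_cover S hρ hi hi1 hi2
  have hd := hc.2.1
  have hpq : Nat.Coprime p q := by
    have h1 : ((Nat.gcd p q : ℕ) : ℤ) ∣ 1 := by
      rw [← hd]
      apply dvd_sub
      · exact Dvd.dvd.mul_right (by exact_mod_cast Nat.gcd_dvd_left p q) _
      · exact Dvd.dvd.mul_right (by exact_mod_cast Nat.gcd_dvd_right p q) _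
    exact Nat.dvd_one.1 (by exact_mod_cast h1)
  have hpq' : Nat.Coprime p' q' := by
    have h1 : ((Nat.gcd p' q' : ℕ) : ℤ) ∣ 1 := by
      rw [← hd]
      apply dvd_sub
      · exact Dvd.dvd.mul_left (by exact_mod_cast Nat.gcd_dvd_right p' q') _
      · exact Dvd.dvd.mul_left (by exact_mod_cast Nat.gcd_dvd_left p' q') _
    exact Nat.dvd_one.1 (by exact_mod_cast h1)
  by_contra hcon
  push Not at hcon
  have n1 := hcon i p q hi hpq hc.2.2.1
  have n2 := hcon i p' q' hi hpq' hc.2.2.2.1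
  rw [abs_of_nonneg (by linarith)] at n1
  rw [abs_sub_comm, abs_of_pos (by linarith)] at n2
  rw [abs_le] at hs
  apply hne
  rw [hF i p q p' q' hc (S.u v) c1 c2, hF i p q p' q' hc s (by linarith [hs.1])
    (by linarith [hs.2])]

end

/-- the multiplicative function on the Gaussian integers -/
noncomputable def gz (h : ℕ → ℤ) (z : T2.G) : ℝ := by
  classical
  exact if z = 0 then 0 else (h (T2.nn z) : ℝ)

theorem sgn_one {h : ℕ → ℤ} (hh : Sgn h) : h 1 = 1 := by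
  have h1 := hh.mul 1 1 le_rfl le_rfl
  rcases hh.pm 1 le_rfl with h2 | h2
  · exact h2
  · rw [mul_one, h2] at h1; norm_num at h1

theorem gz_rg {h : ℕ → ℤ} (hh : Sgn h) : PENT.MRG.RG (gz h) := by
  classical
  have hpos : ∀ z : T2.G, z ≠ 0 → 1 ≤ T2.nn z := fun z hz => T2.nn_pos.2 hz
  constructor
  · simp [gz]
  · have : T2.nn (1 : T2.G) = 1 := by unfold T2.nn; simp
    simp [gz, this, sgn_one hh]
  · have h0 : T2.ui ≠ 0 := by
      intro h
      have := congrArg Zsqrtd.im h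
      simp [T2.ui] at this
    have : T2.nn T2.ui = 1 := by
      unfold T2.nn T2.ui
      simp [Zsqrtd.norm_def]
    simp [gz, this, sgn_one hh, h0]
  · intro z w
    by_cases hz : z = 0
    · simp [gz, hz]
    by_cases hw : w = 0
    · simp [gz, hw]
    have hzw : z * w ≠ 0 := mul_ne_zero hz hw
    simp only [gz, if_neg hz, if_neg hw, if_neg hzw]
    rw [T2.nn_mul, hh.mul _ _ (hpos z hz) (hpos w hw)]
    push_cast
    rfl
  · intro z hz
    simp only [gz, if_neg hz]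
    rcases hh.pm _ (hpos z hz) with h1 | h1 <;> rw [h1] <;> norm_num

theorem gz_tg (h : ℕ → ℤ) {v : El} (hv : 0 < nm 0 1 v) : gz h (tg v) = (gg 0 1 h v : ℝ) := by
  classical
  have h0 : tg v ≠ 0 := by
    intro h0
    have h1 : T2.nn (tg v) = 0 := by rw [h0]; unfold T2.nn; simp
    have h2 := nn_tg v
    rw [h1] at h2
    push_cast at h2
    omega
  simp only [gz, if_neg h0]
  unfold gg
  rw [nn_tg']

theorem gz_neg (h : ℕ → ℤ) (z : T2.G) : gz h (-z) = gz h z := by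
  classical
  unfold gz
  have : T2.nn (-z) = T2.nn z := by unfold T2.nn; rw [Zsqrtd.norm_neg]
  simp only [neg_eq_zero, this]

theorem ang_neg (k : ℤ) (z : T2.G) : T2.ang (2 * k) (-z) = T2.ang (2 * k) z := by
  rw [ang_two_mul, ang_two_mul]
  congr 1
  unfold T2.ang
  have : ((-z : T2.G) : ℂ) = -((z : T2.G) : ℂ) := by
    rw [map_neg]
  rw [this, norm_neg, neg_div, zpow_two, zpow_two]
  ring

open Classical in
theorem sum_link (S : Sys 0 1) (h : ℕ → ℤ) (Y : ℝ) (k : ℤ) :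
    ∑ z ∈ T2.PB Y, (gz h z : ℂ) * T2.ang (2 * k) z =
      2 * ∑ v ∈ (S.MF Y).filter Pm, (gg 0 1 h v : ℂ) * ex (k * S.u v) := by
  rw [sum_PB S Y (fun z => (gz h z : ℂ) * T2.ang (2 * k) z) (fun z => by
    rw [gz_neg, ang_neg])]
  congr 1
  apply Finset.sum_congr rfl
  intro v hv
  have hwd := ((mem_MF S).1 (Finset.mem_filter.1 hv).1).1
  rw [gz_tg h (wd_nm S hwd), ex_ku S k hwd]
  push_cast
  rfl

theorem ang_zero (z : T2.G) : T2.ang (2 * 0) z = 1 := by
  unfold T2.ang; simp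

open Classical in
/-- the mean square over the nonzero frequencies -/
theorem freq_sq (S : Sys 0 1) {h : ℕ → ℤ} {Y Z H0 E : ℝ}
    (hE : ∑ k ∈ (T2.Ks (Y / H0)).erase 0, ‖∑ z ∈ T2.PB Y, (gz h z : ℂ) * T2.ang k z‖ ^ 2 ≤ E)
    (hZ : 2 * Z ≤ Y / H0) :
    ∑ k ∈ (KK Z).erase 0, ‖∑ v ∈ (S.MF Y).filter Pm, (gg 0 1 h v : ℂ) * ex (k * S.u v)‖ ^ 2 ≤
      E / 4 := by
  have h1 : ∑ k ∈ (KK Z).erase 0,
      ‖∑ z ∈ T2.PB Y, (gz h z : ℂ) * T2.ang (2 * k) z‖ ^ 2 ≤ E := by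
    refine le_trans ?_ hE
    have hinj : Set.InjOn (fun k : ℤ => 2 * k) ((KK Z).erase 0) := by
      intro a _ b _ hab
      simp only at hab
      omega
    rw [← Finset.sum_image (f := fun k => ‖∑ z ∈ T2.PB Y, (gz h z : ℂ) * T2.ang k z‖ ^ 2) hinj]
    apply Finset.sum_le_sum_of_subset_of_nonneg
    · intro k hk
      obtain ⟨l, hl, rfl⟩ := Finset.mem_image.1 hk
      rw [Finset.mem_erase] at hl ⊢
      refine ⟨by omega, ?_⟩
      have hl2 := hl.2
      unfold KK at hl2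
      rw [Finset.mem_Ioo] at hl2
      unfold T2.Ks
      rw [Finset.mem_Icc]
      have a1 : (l : ℝ) < Z := by
        have := Int.lt_ceil.1 hl2.2
        exact this
      have a2 : -Z < (l : ℝ) := by
        have h3 : -l < ⌈Z⌉ := by omega
        have := Int.lt_ceil.1 h3
        push_cast at this
        linarith
      constructor
      · have : (-(2 * l) : ℤ) ≤ ⌊Y / H0⌋ := by
          rw [Int.le_floor]; push_cast; linarith
        omega
      · rw [Int.le_floor]; push_cast; linarith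
    · intro k _ _
      positivity
  have h2 : ∑ k ∈ (KK Z).erase 0, ‖∑ z ∈ T2.PB Y, (gz h z : ℂ) * T2.ang (2 * k) z‖ ^ 2 =
      4 * ∑ k ∈ (KK Z).erase 0,
        ‖∑ v ∈ (S.MF Y).filter Pm, (gg 0 1 h v : ℂ) * ex (k * S.u v)‖ ^ 2 := by
    rw [Finset.mul_sum]
    apply Finset.sum_congr rfl
    intro k _
    rw [sum_link S h Y k, norm_mul]
    norm_num
    ring
  rw [h2] at h1
  linarith

theorem sum_sq_fc {F : ℝ → ℝ} (hp : ∀ t, F (t + 1) = F t) (hm : Measurable F)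
    (h1 : ∀ t, F t = 1 ∨ F t = -1) (T : Finset ℤ) : ∑ k ∈ T, ‖fc F k‖ ^ 2 ≤ 1 := by
  obtain ⟨hs, ht, _⟩ := parseval hp hm h1
  rw [← ht]
  exact hs.sum_le_tsum T (fun k _ => by positivity)

end Pool.Agent.ZO
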