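import Pool.Agent.Lib_helper1.ZO.G

/-! # ZO: one sign on almost all primitive elements (helper1) -/

set_option autoImplicit false

namespace Pool.Agent.ZO

open Finset Pool.Agent.MQ

/-- the analytic core: from the step function to the plain sum -/
theorem plain_sum (S : Sys 0 1) {h : ℕ → ℤ} (hh : Sgn h) {F : ℝ → ℝ}
    (hp : ∀ t, F (t + 1) = F t) (hm : Measurable F) (h1 : ∀ t, F t = 1 ∨ F t = -1)
    {Z η E : ℝ} (hZ : 1 ≤ Z) (hη : 0 < η) (hη2 : η ≤ 1 / 2) (hE0 : 0 ≤ E) (P B : Finset El)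
    (hP : ∀ v ∈ P, S.wd v)
    (hB : ∀ v ∈ P, v ∉ B → ∀ s : ℝ, |s - S.u v| ≤ η → F s = gg 0 1 h v)
    (hE : ∑ k ∈ (KK Z).erase 0, ‖∑ v ∈ P, (gg 0 1 h v : ℂ) * ex (k * S.u v)‖ ^ 2 ≤ E) :
    (P.card : ℝ) - (1 / (Z * η)) * P.card - 2 * B.card - Real.sqrt E ≤
      ‖∑ v ∈ P, (gg 0 1 h v : ℂ)‖ := by
  classical
  set Φ : ℝ → ℂ := fun t => ∑ k ∈ KK Z, ((1 - |(k : ℝ)| / ⌈Z⌉ : ℝ) : ℂ) * fc F k * ex (k * t)
    with hΦ
  have hF1 : ∀ t, ‖Φ t‖ ≤ 1 := fun t => (fejer hp hm h1 hZ t).1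
  have hgpm : ∀ v ∈ P, gg 0 1 h v = 1 ∨ gg 0 1 h v = -1 := fun v hv =>
    gg_pm hh (wd_nm S (hP v hv)).ne'
  have hgn : ∀ v ∈ P, ‖(gg 0 1 h v : ℂ)‖ = 1 := by
    intro v hv
    rcases hgpm v hv with e | e <;> rw [e] <;> norm_num
  have hgs : ∀ v ∈ P, (gg 0 1 h v : ℂ) * (gg 0 1 h v : ℂ) = 1 := by
    intro v hv
    rcases hgpm v hv with e | e <;> rw [e] <;> norm_num
  -- lower bound
  have hlow : (P.card : ℝ) - (1 / (Z * η)) * P.card - 2 * B.card ≤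
      ‖∑ v ∈ P, (gg 0 1 h v : ℂ) * Φ (S.u v)‖ := by
    have e1 : ∑ v ∈ P, (gg 0 1 h v : ℂ) * Φ (S.u v) = (P.card : ℂ) +
        ∑ v ∈ P, (gg 0 1 h v : ℂ) * (Φ (S.u v) - gg 0 1 h v) := by
      have : (P.card : ℂ) = ∑ v ∈ P, (gg 0 1 h v : ℂ) * (gg 0 1 h v : ℂ) := by
        rw [Finset.sum_congr rfl hgs]; simp
      rw [this, ← Finset.sum_add_distrib]
      apply Finset.sum_congr rfl
      intro v _
      ring
    have e2 : ‖∑ v ∈ P, (gg 0 1 h v : ℂ) * (Φ (S.u v) - gg 0 1 h v)‖ ≤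
        (1 / (Z * η)) * P.card + 2 * B.card := by
      refine (norm_sum_le _ _).trans ?_
      have e3 : ∀ v ∈ P, ‖(gg 0 1 h v : ℂ) * (Φ (S.u v) - gg 0 1 h v)‖ ≤
          1 / (Z * η) + if v ∈ B then 2 else 0 := by
        intro v hv
        rw [norm_mul, hgn v hv, one_mul]
        by_cases hvB : v ∈ B
        · rw [if_pos hvB]
          have h3 : ‖Φ (S.u v) - gg 0 1 h v‖ ≤ 2 := by
            refine (norm_sub_le _ _).trans ?_
            rw [hgn v hv]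
            linarith [hF1 (S.u v)]
          have h4 : 0 ≤ 1 / (Z * η) := by positivity
          linarith
        · rw [if_neg hvB, add_zero]
          have h5 := (fejer hp hm h1 hZ (S.u v)).2 η (gg 0 1 h v : ℝ) hη hη2
            (hB v hv hvB)
          have h6 : (((gg 0 1 h v : ℤ) : ℝ) : ℂ) = ((gg 0 1 h v : ℤ) : ℂ) := by push_cast; rfl
          rw [h6] at h5
          exact h5
      refine (Finset.sum_le_sum e3).trans ?_
      rw [Finset.sum_add_distrib, Finset.sum_const, nsmul_eq_mul, ← Finset.sum_filter,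
        Finset.sum_const, nsmul_eq_mul]
      have h6 : ((P.filter (fun v => v ∈ B)).card : ℝ) ≤ B.card := by
        have : P.filter (fun v => v ∈ B) ⊆ B := fun v hv => (Finset.mem_filter.1 hv).2
        exact_mod_cast Finset.card_le_card this
      linarith
    rw [e1]
    have e4 := norm_sub_norm_le (P.card : ℂ)
      (-∑ v ∈ P, (gg 0 1 h v : ℂ) * (Φ (S.u v) - gg 0 1 h v))
    rw [sub_neg_eq_add, norm_neg, Complex.norm_natCast] at e4
    linarith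
  -- expansion
  set a : ℤ → ℂ := fun k => ((1 - |(k : ℝ)| / ⌈Z⌉ : ℝ) : ℂ) * fc F k with ha
  set A : ℤ → ℂ := fun k => ∑ v ∈ P, (gg 0 1 h v : ℂ) * ex (k * S.u v) with hA
  have hexp : ∑ v ∈ P, (gg 0 1 h v : ℂ) * Φ (S.u v) = ∑ k ∈ KK Z, a k * A k := by
    simp only [hΦ, Finset.mul_sum, hA, ha]
    rw [Finset.sum_comm]
    apply Finset.sum_congr rfl
    intro k _
    apply Finset.sum_congr rfl
    intro v _
    ring
  have hZ0 : (0 : ℤ) < ⌈Z⌉ := Int.ceil_pos.2 (by linarith)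
  have hZ0r : (0 : ℝ) < (⌈Z⌉ : ℝ) := by exact_mod_cast hZ0
  have h0 : (0 : ℤ) ∈ KK Z := by
    unfold KK
    rw [Finset.mem_Ioo]
    omega
  have hca : ∀ k ∈ KK Z, ‖a k‖ ≤ ‖fc F k‖ := by
    intro k hk
    unfold KK at hk
    rw [Finset.mem_Ioo] at hk
    have hk1 : |(k : ℝ)| < ⌈Z⌉ := by
      rw [abs_lt]
      constructor
      · have : ((-⌈Z⌉ : ℤ) : ℝ) < k := by exact_mod_cast hk.1
        push_cast at this; exact this
      · exact_mod_cast hk.2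
    have hk2 : 0 ≤ 1 - |(k : ℝ)| / ⌈Z⌉ := by
      rw [sub_nonneg, div_le_one hZ0r]; exact hk1.le
    have hk3 : 1 - |(k : ℝ)| / ⌈Z⌉ ≤ 1 := by
      have : 0 ≤ |(k : ℝ)| / ⌈Z⌉ := by positivity
      linarith
    simp only [ha]
    rw [norm_mul, Complex.norm_real, Real.norm_of_nonneg hk2]
    exact mul_le_of_le_one_left (norm_nonneg _) hk3
  have hA0 : A 0 = ∑ v ∈ P, (gg 0 1 h v : ℂ) := by
    simp only [hA]
    apply Finset.sum_congr rfl
    intro v _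
    unfold ex
    simp
  have ha0 : ‖a 0‖ ≤ 1 := by
    refine (hca 0 h0).trans ?_
    have h2 := sum_sq_fc hp hm h1 {0}
    rw [Finset.sum_singleton] at h2
    exact (sq_le_one_iff₀ (norm_nonneg _)).1 h2
  have hup : ‖∑ k ∈ KK Z, a k * A k‖ ≤ ‖∑ v ∈ P, (gg 0 1 h v : ℂ)‖ + Real.sqrt E := by
    rw [← Finset.add_sum_erase _ _ h0]
    refine (norm_add_le _ _).trans ?_
    apply add_le_add
    · rw [norm_mul, hA0]
      exact mul_le_of_le_one_left (norm_nonneg _) ha0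
    · refine (norm_sum_le _ _).trans ?_
      have e5 : ∑ k ∈ (KK Z).erase 0, ‖a k * A k‖ = ∑ k ∈ (KK Z).erase 0, ‖a k‖ * ‖A k‖ := by
        apply Finset.sum_congr rfl
        intro k _
        rw [norm_mul]
      rw [e5]
      apply Real.le_sqrt_of_sq_le
      refine (Finset.sum_mul_sq_le_sq_mul_sq _ _ _).trans ?_
      have e6 : ∑ k ∈ (KK Z).erase 0, ‖a k‖ ^ 2 ≤ 1 := by
        refine le_trans ?_ (sum_sq_fc hp hm h1 ((KK Z).erase 0))
        apply Finset.sum_le_sum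
        intro k hk
        exact pow_le_pow_left₀ (norm_nonneg _) (hca k (Finset.mem_of_mem_erase hk)) 2
      calc (∑ k ∈ (KK Z).erase 0, ‖a k‖ ^ 2) * ∑ k ∈ (KK Z).erase 0, ‖A k‖ ^ 2 ≤ 1 * E :=
            mul_le_mul e6 hE (Finset.sum_nonneg fun k _ => by positivity) zero_le_one
        _ = E := one_mul E
  rw [hexp] at hlow
  linarith

/-- from the plain sum to one sign -/
theorem one_sign {h : ℕ → ℤ} (P : Finset El) (hg : ∀ v ∈ P, gg 0 1 h v = 1 ∨ gg 0 1 h v = -1)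
    {D : ℝ} (hD : (P.card : ℝ) - 2 * D ≤ ‖∑ v ∈ P, (gg 0 1 h v : ℂ)‖) :
    ∃ s : ℤ, (s = 1 ∨ s = -1) ∧ ((P.filter (fun v => gg 0 1 h v ≠ s)).card : ℝ) ≤ D := by
  classical
  have key : ∀ s : ℤ, (s = 1 ∨ s = -1) → (∑ v ∈ P, (gg 0 1 h v : ℝ)) * s =
      P.card - 2 * (P.filter (fun v => gg 0 1 h v ≠ s)).card := by
    intro s hs
    rw [Finset.sum_mul]
    have e1 : ∀ v ∈ P, (gg 0 1 h v : ℝ) * s = 1 - 2 * (if gg 0 1 h v ≠ s then 1 else 0) := by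
      intro v hv
      rcases hg v hv with e | e <;> rcases hs with rfl | rfl <;> rw [e] <;> norm_num
    rw [Finset.sum_congr rfl e1, Finset.sum_sub_distrib, ← Finset.mul_sum, Finset.sum_const,
      ← Finset.sum_filter, Finset.sum_const]
    simp
  have e2 : ‖∑ v ∈ P, (gg 0 1 h v : ℂ)‖ = |∑ v ∈ P, (gg 0 1 h v : ℝ)| := by
    rw [← Real.norm_eq_abs, ← Complex.norm_real]
    congr 1
    push_cast
    rfl
  rw [e2] at hD
  rcases le_total 0 (∑ v ∈ P, (gg 0 1 h v : ℝ)) with h0 | h0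
  · rw [abs_of_nonneg h0] at hD
    refine ⟨1, Or.inl rfl, ?_⟩
    have := key 1 (Or.inl rfl)
    push_cast at this
    linarith
  · rw [abs_of_nonpos h0] at hD
    refine ⟨-1, Or.inr rfl, ?_⟩
    have := key (-1) (Or.inr rfl)
    push_cast at this
    linarith

open Classical in
theorem almost_all (S : Sys 0 1) (hPT : ∀ δ C1 : ℝ, 0 < δ → 1 ≤ C1 → PATH.PT01 δ C1)
    (hM : MRGP) {δ : ℝ} (hδ : 0 < δ) : ∃ (c : ℝ) (N : ℕ), 0 < c ∧ ∃ Y₀ : ℝ, 1 ≤ Y₀ ∧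
    ∀ h : ℕ → ℤ, Sgn h → ∀ Y : ℝ, Y₀ ≤ Y → ∀ σ : ℤ, (σ = 1 ∨ σ = -1) →
    (((Icc 1 ⌊N * Y⌋₊).filter (fun n => h (n ^ 2 + 1) = σ)).card : ℝ) < c * Y →
    ∃ s : ℤ, (s = 1 ∨ s = -1) ∧
      ((((S.MF Y).filter Pm).filter (fun v => gg 0 1 h v ≠ s)).card : ℝ) ≤ δ * Y := by
  obtain ⟨CM, hCM, hcard⟩ := MF_card S
  obtain ⟨C, hC, hchain⟩ := chain S
  obtain ⟨C', hC', hjump⟩ := near_jump S
  obtain ⟨C'', hC'', hstep⟩ := step_fun S
  obtain ⟨H0, Y1, hH0, hmr⟩ := hM (δ ^ 2) (by positivity)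
  set θ : ℝ := δ / (4 * CM) with hθ
  have hθ0 : 0 < θ := by positivity
  set H : ℝ := 2 + 16 * C / δ + 8 * C' * (2 * H0 / θ + 2) / δ with hH
  have hH1 : 0 ≤ 16 * C / δ := by positivity
  have hH2 : 0 ≤ 8 * C' * (2 * H0 / θ + 2) / δ := by positivity
  have hH3 : 2 ≤ H := by rw [hH]; linarith
  have hH0' : 0 < H := by linarith
  obtain ⟨c, N, hc, Y2, hY2, hch⟩ := hchain hPT H hH3 (δ / 16) (by positivity)
  refine ⟨c, N, hc, max Y2 (max Y1 (max (2 * H0) (4 * H0 / θ))), hY2.trans (le_max_left _ _), ?_⟩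
  intro h hh Y hY σ hσ hE
  have hYa : Y2 ≤ Y := (le_max_left _ _).trans hY
  have hYb : Y1 ≤ Y := ((le_max_left _ _).trans (le_max_right _ _)).trans hY
  have hYc : 2 * H0 ≤ Y :=
    (((le_max_left _ _).trans (le_max_right _ _)).trans (le_max_right _ _)).trans hY
  have hYd : 4 * H0 / θ ≤ Y :=
    (((le_max_right _ _).trans (le_max_right _ _)).trans (le_max_right _ _)).trans hY
  have hY1 : 1 ≤ Y := hY2.trans hYa
  have hY0 : 0 < Y := by linarith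
  obtain ⟨hρ1, hQ⟩ := hch h hh Y hYa σ hσ hE
  set ρ : ℕ := ⌊Real.sqrt Y / H⌋₊ with hρ
  have hsY0 : 0 ≤ Real.sqrt Y := Real.sqrt_nonneg _
  have hsY2 : Real.sqrt Y ^ 2 = Y := Real.sq_sqrt hY0.le
  have hρle : (ρ : ℝ) ≤ Real.sqrt Y / H := Nat.floor_le (by positivity)
  have hρ0 : (0 : ℝ) ≤ ρ := Nat.cast_nonneg _
  have hρsY : (ρ : ℝ) ≤ Real.sqrt Y := hρle.trans (div_le_self hsY0 (by linarith))
  obtain ⟨F, hp, hm, h1, _, hcell⟩ := hstep h hh ρ hρ1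
  set P := (S.MF Y).filter Pm with hP
  set Z : ℝ := Y / (2 * H0) with hZ
  have hH00 : 0 < H0 := by linarith
  have hZ1 : 1 ≤ Z := by rw [hZ, le_div_iff₀ (by positivity)]; linarith
  set η : ℝ := 2 * H0 / (Y * θ) with hη
  have hη0 : 0 < η := by positivity
  have hη2 : η ≤ 1 / 2 := by
    rw [hη, div_le_div_iff₀ (by positivity) (by norm_num)]
    rw [div_le_iff₀ hθ0] at hYd
    linarith
  have hZη : 1 / (Z * η) = θ := by
    rw [hZ, hη]; field_simp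
  -- the bad sets
  set Q := P.filter (fun v => F (S.u v) ≠ gg 0 1 h v) with hQd
  set R := (S.MF Y).filter (fun v => ∃ s : ℝ, |s - S.u v| ≤ η ∧ F s ≠ F (S.u v)) with hRd
  have hQc : (Q.card : ℝ) ≤ (C / H + δ / 16) * Y := by
    apply hQ F (fun i p q p' q' hc t => hcell i p q p' q' hc t)
    intro v hv
    rw [hQd, Finset.mem_filter, hP, Finset.mem_filter] at hv
    exact ⟨hv.1.1, hv.1.2, hv.2⟩
  have hRc : (R.card : ℝ) ≤ C' * (η * Y * (ρ : ℝ) ^ 2 + Real.sqrt Y * ρ + (ρ : ℝ) ^ 2) :=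
    hjump Y η ρ hY1 hη0.le hρ1 hρsY F (fun v => (gg 0 1 h v : ℝ))
      (fun i p q p' q' hc t => hcell i p q p' q' hc t)
  have e1 : Real.sqrt Y * ρ ≤ Y / H := by
    calc Real.sqrt Y * ρ ≤ Real.sqrt Y * (Real.sqrt Y / H) :=
          mul_le_mul_of_nonneg_left hρle hsY0
      _ = Real.sqrt Y ^ 2 / H := by ring
      _ = Y / H := by rw [hsY2]
  have e2 : (ρ : ℝ) ^ 2 ≤ Y / H := by
    calc (ρ : ℝ) ^ 2 = ρ * ρ := by ring
      _ ≤ Real.sqrt Y * ρ := mul_le_mul_of_nonneg_right hρsY hρ0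
      _ ≤ Y / H := e1
  have hηY : η * Y = 2 * H0 / θ := by rw [hη]; field_simp
  have hHC : C / H ≤ δ / 16 := by
    rw [div_le_div_iff₀ hH0' (by norm_num)]
    have : 16 * C / δ ≤ H := by rw [hH]; linarith
    rw [div_le_iff₀ hδ] at this
    linarith
  have hHC' : C' * (2 * H0 / θ + 2) / H ≤ δ / 8 := by
    rw [div_le_div_iff₀ hH0' (by norm_num)]
    have : 8 * C' * (2 * H0 / θ + 2) / δ ≤ H := by rw [hH]; linarith
    rw [div_le_iff₀ hδ] at this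
    linarith
  have hQ' : (Q.card : ℝ) ≤ δ / 8 * Y := by
    refine hQc.trans ?_
    apply mul_le_mul_of_nonneg_right _ hY0.le
    linarith
  have hR' : (R.card : ℝ) ≤ δ / 8 * Y := by
    refine hRc.trans ?_
    rw [hηY]
    calc C' * (2 * H0 / θ * (ρ : ℝ) ^ 2 + Real.sqrt Y * ρ + (ρ : ℝ) ^ 2) ≤
          C' * (2 * H0 / θ * (Y / H) + Y / H + Y / H) := by
          apply mul_le_mul_of_nonneg_left _ (by linarith)
          have : 2 * H0 / θ * (ρ : ℝ) ^ 2 ≤ 2 * H0 / θ * (Y / H) :=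
            mul_le_mul_of_nonneg_left e2 (by positivity)
          linarith
      _ = C' * (2 * H0 / θ + 2) / H * Y := by ring
      _ ≤ δ / 8 * Y := mul_le_mul_of_nonneg_right hHC' hY0.le
  have hEE := freq_sq S (h := h) (Y := Y) (Z := Z) (H0 := H0) (E := δ ^ 2 * Y ^ 2)
    (hmr H0 le_rfl Y hYb (gz h) (gz_rg hh)) (by rw [hZ]; exact le_of_eq (by field_simp))
  have hmain := plain_sum S hh hp hm h1 hZ1 hη0 hη2 (E := δ ^ 2 * Y ^ 2 / 4) (by positivity) P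
    (Q ∪ R) (fun v hv => ((mem_MF S).1 (Finset.mem_filter.1 hv).1).1) (by
      intro v hv hvB s hs
      rw [Finset.mem_union, not_or] at hvB
      have a1 : F (S.u v) = gg 0 1 h v := by
        by_contra hcon
        exact hvB.1 (Finset.mem_filter.2 ⟨hv, hcon⟩)
      have a2 : F s = F (S.u v) := by
        by_contra hcon
        exact hvB.2 (Finset.mem_filter.2 ⟨(Finset.mem_filter.1 hv).1, s, hs, hcon⟩)
      rw [a2, a1]) hEE
  have hsqrt : Real.sqrt (δ ^ 2 * Y ^ 2 / 4) = δ * Y / 2 := by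
    have : δ ^ 2 * Y ^ 2 / 4 = (δ * Y / 2) ^ 2 := by ring
    rw [this, Real.sqrt_sq (by positivity)]
  rw [hZη, hsqrt] at hmain
  have hPc : (P.card : ℝ) ≤ CM * Y := by
    refine le_trans ?_ (hcard Y hY1).2
    exact_mod_cast Finset.card_filter_le _ _
  have hθP : θ * P.card ≤ δ / 4 * Y := by
    calc θ * P.card ≤ θ * (CM * Y) := mul_le_mul_of_nonneg_left hPc hθ0.le
      _ = δ / 4 * Y := by rw [hθ]; field_simp
  have hun : (((Q ∪ R).card : ℕ) : ℝ) ≤ δ / 8 * Y + δ / 8 * Y := by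
    have : (((Q ∪ R).card : ℕ) : ℝ) ≤ (Q.card : ℝ) + R.card := by
      exact_mod_cast Finset.card_union_le _ _
    linarith
  apply one_sign P (fun v hv => gg_pm hh
    (wd_nm S ((mem_MF S).1 (Finset.mem_filter.1 hv).1).1).ne')
  have hδY : 0 ≤ δ * Y := by positivity
  linarith

end Pool.Agent.ZO
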