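import Pool.Agent.Lib_helper1.ZO.H
import Pool.Agent.Lib_helper39.MQX.SYN

/-! # ZO: the 0-1 law from its two inputs (helper1) -/

set_option autoImplicit false

namespace Pool.Agent.ZO

open Finset Pool.Agent.MQ

theorem content (S : Sys 0 1) {v : El} (hv : S.wd v) : ∃ (k : ℕ) (w : El), 1 ≤ k ∧ S.wd w ∧
    Pm w ∧ v = sm k w ∧ nm 0 1 v = (k : ℤ) ^ 2 * nm 0 1 w := by
  have h0 := wd_nm S hv
  set k := Int.gcd v.1 v.2 with hk
  have hk0 : k ≠ 0 := by
    intro h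
    rw [hk, Int.gcd_eq_zero_iff] at h
    rw [nm01, h.1, h.2] at h0
    norm_num at h0
  obtain ⟨a, ha⟩ := Int.gcd_dvd_left (a := v.1) (b := v.2)
  obtain ⟨b, hb⟩ := Int.gcd_dvd_right (a := v.1) (b := v.2)
  rw [← hk] at ha hb
  have hk1 : 1 ≤ k := Nat.one_le_iff_ne_zero.2 hk0
  have hvw : v = sm k (a, b) := by
    unfold sm
    exact Prod.ext ha hb
  refine ⟨k, (a, b), hk1, ?_, ?_, hvw, ?_⟩
  · rw [hvw] at hv
    exact (wd_sm S hk1).1 hv
  · unfold Pm
    have h1 := Int.gcd_mul_left (k : ℤ) a b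
    simp only
    rw [← ha, ← hb, ← hk] at h1
    simp only [Int.natAbs_natCast] at h1
    have h2 : k * 1 = k * Int.gcd a b := by rw [mul_one]; exact h1
    exact (Nat.eq_of_mul_eq_mul_left hk1 h2).symm
  · rw [nm01, nm01, ha, hb]
    ring

open Classical in
theorem all_of_prim (S : Sys 0 1) : ∃ C : ℝ, 1 ≤ C ∧ ∀ (h : ℕ → ℤ), Sgn h → ∀ (Y D : ℝ) (s : ℤ)
    (K : ℕ), 1 ≤ Y → 0 ≤ D → 1 ≤ K →
    ((((S.MF Y).filter Pm).filter (fun v => gg 0 1 h v ≠ s)).card : ℝ) ≤ D →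
    (((S.MF Y).filter (fun v => gg 0 1 h v ≠ s)).card : ℝ) ≤ K * D + 2 * C * Y / K := by
  obtain ⟨C, hC, hcard⟩ := MF_card S
  refine ⟨C, hC, ?_⟩
  intro h hh Y D s K hY hD hK hbad
  have hY0 : 0 < Y := by linarith
  have hKr : (1 : ℝ) ≤ K := by exact_mod_cast hK
  set n := ⌊Real.sqrt Y⌋₊ with hn
  let B : ℕ → Finset El := fun k => ((S.MF (Y / k ^ 2)).filter Pm).filter
    (fun v => gg 0 1 h v ≠ s)
  have hB1 : ∀ k : ℕ, 1 ≤ k → ((B k).card : ℝ) ≤ D := by
    intro k hk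
    refine le_trans ?_ hbad
    have : B k ⊆ ((S.MF Y).filter Pm).filter (fun v => gg 0 1 h v ≠ s) := by
      apply Finset.filter_subset_filter
      apply Finset.filter_subset_filter
      intro v hv
      rw [mem_MF S] at hv ⊢
      refine ⟨hv.1, hv.2.trans ?_⟩
      apply div_le_self hY0.le
      have : (1 : ℝ) ≤ k := by exact_mod_cast hk
      exact one_le_pow₀ this
    exact_mod_cast Finset.card_le_card this
  have hB2 : ∀ k : ℕ, 1 ≤ k → k ≤ n → ((B k).card : ℝ) ≤ C * Y * ((k : ℝ) ^ 2)⁻¹ := by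
    intro k hk hkn
    have hk0 : (0 : ℝ) < k := by exact_mod_cast hk
    have hkY : (k : ℝ) ≤ Real.sqrt Y := by
      refine le_trans (by exact_mod_cast hkn) (Nat.floor_le (Real.sqrt_nonneg _))
    have hk2 : (k : ℝ) ^ 2 ≤ Y := by
      have := pow_le_pow_left₀ hk0.le hkY 2
      rwa [Real.sq_sqrt hY0.le] at this
    have h1 := (hcard (Y / k ^ 2) (by rw [le_div_iff₀ (by positivity)]; linarith)).2
    have h2 : ((B k).card : ℝ) ≤ ((S.MF (Y / k ^ 2)).card : ℝ) :=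
      Nat.cast_le.2 ((Finset.card_filter_le _ _).trans (Finset.card_filter_le _ _))
    refine h2.trans (h1.trans (le_of_eq ?_))
    rw [div_eq_mul_inv]; ring
  have hsub : (S.MF Y).filter (fun v => gg 0 1 h v ≠ s) ⊆
      (Finset.Ioo 0 (K + 1)).biUnion (fun k => (B k).image (sm k)) ∪
      (Finset.Ioo K (n + 1)).biUnion (fun k => (B k).image (sm k)) := by
    intro v hv
    rw [Finset.mem_filter, mem_MF S] at hv
    obtain ⟨⟨hwd, hY'⟩, hne⟩ := hv
    obtain ⟨k, w, hk, hw, hwP, hvw, hnm⟩ := content S hwd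
    have hk0 : (0 : ℝ) < k := by exact_mod_cast hk
    have hnmr : (nm 0 1 v : ℝ) = (k : ℝ) ^ 2 * nm 0 1 w := by rw [hnm]; push_cast; ring
    have hwn := wd_nm S hw
    have hwn1 : (1 : ℝ) ≤ nm 0 1 w := by exact_mod_cast hwn
    have hwB : w ∈ B k := by
      simp only [B, Finset.mem_filter, mem_MF S]
      refine ⟨⟨⟨hw, ?_⟩, hwP⟩, ?_⟩
      · rw [le_div_iff₀ (by positivity), mul_comm, ← hnmr]
        exact hY'
      · rw [hvw, gg_sm hh hwn.ne' hk] at hne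
        exact hne
    have hkn : k ≤ n := by
      rw [hn]
      apply Nat.le_floor
      apply Real.le_sqrt_of_sq_le
      nlinarith
    rw [Finset.mem_union, Finset.mem_biUnion, Finset.mem_biUnion]
    rcases Nat.lt_or_ge K k with hlt | hge
    · right
      exact ⟨k, Finset.mem_Ioo.2 ⟨hlt, by omega⟩, Finset.mem_image.2 ⟨w, hwB, hvw.symm⟩⟩
    · left
      exact ⟨k, Finset.mem_Ioo.2 ⟨by omega, by omega⟩, Finset.mem_image.2 ⟨w, hwB, hvw.symm⟩⟩
  have h1 : (((S.MF Y).filter (fun v => gg 0 1 h v ≠ s)).card : ℝ) ≤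
      ∑ k ∈ Finset.Ioo 0 (K + 1), ((B k).card : ℝ) + ∑ k ∈ Finset.Ioo K (n + 1), ((B k).card : ℝ) := by
    have h2 : ((S.MF Y).filter (fun v => gg 0 1 h v ≠ s)).card ≤
        ∑ k ∈ Finset.Ioo 0 (K + 1), (B k).card + ∑ k ∈ Finset.Ioo K (n + 1), (B k).card := by
      refine (Finset.card_le_card hsub).trans ((Finset.card_union_le _ _).trans ?_)
      apply Nat.add_le_add
      · refine Finset.card_biUnion_le.trans ?_
        exact Finset.sum_le_sum fun k _ => Finset.card_image_le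
      · refine Finset.card_biUnion_le.trans ?_
        exact Finset.sum_le_sum fun k _ => Finset.card_image_le
    exact_mod_cast h2
  have h2 : ∑ k ∈ Finset.Ioo 0 (K + 1), ((B k).card : ℝ) ≤ K * D := by
    have h3 : ∑ k ∈ Finset.Ioo 0 (K + 1), ((B k).card : ℝ) ≤ ∑ k ∈ Finset.Ioo 0 (K + 1), D := by
      apply Finset.sum_le_sum
      intro k hk
      exact hB1 k (Finset.mem_Ioo.1 hk).1
    refine h3.trans (le_of_eq ?_)
    rw [Finset.sum_const, Nat.card_Ioo, nsmul_eq_mul]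
    simp
  have h3 : ∑ k ∈ Finset.Ioo K (n + 1), ((B k).card : ℝ) ≤ 2 * C * Y / K := by
    have h4 : ∑ k ∈ Finset.Ioo K (n + 1), ((B k).card : ℝ) ≤
        ∑ k ∈ Finset.Ioo K (n + 1), C * Y * ((k : ℝ) ^ 2)⁻¹ := by
      apply Finset.sum_le_sum
      intro k hk
      rw [Finset.mem_Ioo] at hk
      exact hB2 k (by omega) (by omega)
    rw [← Finset.mul_sum] at h4
    have h5 := sum_Ioo_inv_sq_le (α := ℝ) K (n + 1)
    have h6 : C * Y * ∑ k ∈ Finset.Ioo K (n + 1), ((k : ℝ) ^ 2)⁻¹ ≤ C * Y * (2 / (K + 1)) :=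
      mul_le_mul_of_nonneg_left h5 (by positivity)
    have h7 : C * Y * (2 / ((K : ℝ) + 1)) ≤ 2 * C * Y / K := by
      rw [mul_div_assoc', div_le_div_iff₀ (by positivity) (by positivity)]
      have : 0 ≤ C * Y := by positivity
      nlinarith
    linarith
  linarith

/-- THE REDUCTION: the 0-1 law from the rigidity and the theorem of Matomaki and Radziwill -/
theorem zero_one_red (hPT : ∀ δ C1 : ℝ, 0 < δ → 1 ≤ C1 → PATH.PT01 δ C1) (hM : MRGP)
    {p : ℕ} (hp : p.Prime) (h4 : p % 4 ≠ 3) : ∃ c : ℝ, 0 < c ∧ ∃ x₀ : ℝ, ∀ h : ℕ → ℤ,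
    PENT.CM h → h p = -1 → ∀ x : ℝ, x₀ ≤ x → ∀ s : ℤ, (s = 1 ∨ s = -1) →
    c * x ≤ (((Icc 1 ⌊x⌋₊).filter (fun n => h (n ^ 2 + 1) = s)).card : ℝ) := by
  classical
  obtain ⟨S⟩ := sys_neg 0 1 dsc01
  obtain ⟨CM, hCM, hcard⟩ := MF_card S
  obtain ⟨C, hC, hall⟩ := all_of_prim S
  have hp0 : (0 : ℝ) < p := by exact_mod_cast hp.pos
  set K : ℕ := ⌈16 * C * CM * p⌉₊ with hK
  have hKr : 16 * C * CM * p ≤ K := Nat.le_ceil _
  have hK0 : (0 : ℝ) < K := lt_of_lt_of_le (by positivity) hKr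
  have hK1 : 1 ≤ K := by exact_mod_cast hK0
  set δ : ℝ := 1 / (8 * K * CM * p) with hδ
  have hδ0 : 0 < δ := by positivity
  obtain ⟨c, N, hc, Y0, hY0, haa⟩ := almost_all S hPT hM hδ0
  refine ⟨c / (N + 1), by positivity, (N + 1) * max Y0 p, ?_⟩
  intro h hh hhp x hx σ hσ
  have hs := sgn_of_cm hh
  by_contra hcon
  push Not at hcon
  set Y : ℝ := x / (N + 1) with hY
  have hN1 : (0 : ℝ) < (N : ℝ) + 1 := by positivity
  have hYx : max Y0 p ≤ Y := by
    rw [hY, le_div_iff₀ hN1]; linarith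
  have hYY0 : Y0 ≤ Y := (le_max_left _ _).trans hYx
  have hYp : (p : ℝ) ≤ Y := (le_max_right _ _).trans hYx
  have hY1 : 1 ≤ Y := hY0.trans hYY0
  have hYpos : 0 < Y := by linarith
  have hsparse : (((Icc 1 ⌊N * Y⌋₊).filter (fun n => h (n ^ 2 + 1) = σ)).card : ℝ) < c * Y := by
    have h1 : (Icc 1 ⌊N * Y⌋₊).filter (fun n => h (n ^ 2 + 1) = σ) ⊆
        (Icc 1 ⌊x⌋₊).filter (fun n => h (n ^ 2 + 1) = σ) := by
      apply Finset.filter_subset_filter
      apply Finset.Icc_subset_Icc_right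
      apply Nat.floor_le_floor
      have : x = (N + 1) * Y := by rw [hY]; field_simp
      rw [this]
      nlinarith
    have h2 : (((Icc 1 ⌊N * Y⌋₊).filter (fun n => h (n ^ 2 + 1) = σ)).card : ℝ) ≤
        (((Icc 1 ⌊x⌋₊).filter (fun n => h (n ^ 2 + 1) = σ)).card : ℝ) := by
      exact_mod_cast Finset.card_le_card h1
    refine lt_of_le_of_lt h2 (lt_of_lt_of_eq hcon ?_)
    rw [hY]; ring
  obtain ⟨s, hs1, hbad⟩ := haa h hs Y hYY0 σ hσ hsparse
  have hB := hall h hs Y (δ * Y) s K hY1 (by positivity) hK1 (by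
    convert hbad using 3)
  obtain ⟨B, hBd⟩ : ∃ B, B = (S.MF Y).filter (fun v => gg 0 1 h v ≠ s) := ⟨_, rfl⟩
  rw [← hBd] at hB
  have hmB : ∀ v, v ∈ B ↔ (S.wd v ∧ (nm 0 1 v : ℝ) ≤ Y) ∧ gg 0 1 h v ≠ s := by
    intro v
    rw [hBd, Finset.mem_filter, mem_MF S]
  -- the element of norm p
  have : Fact p.Prime := ⟨hp⟩
  obtain ⟨a, b, hab⟩ := Nat.Prime.sq_add_sq h4
  set π : El := ((a : ℤ), (b : ℤ)) with hπ
  have hnπ : nm 0 1 π = p := by
    rw [nm01, hπ]; simp only; exact_mod_cast hab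
  have hnπ0 : 0 < nm 0 1 π := by rw [hnπ]; exact_mod_cast hp.pos
  have hgπ : gg 0 1 h π = -1 := by
    unfold gg; rw [hnπ, Int.natAbs_natCast, hhp]
  -- the map
  have hsub : S.MF (Y / p) ⊆ B ∪ (S.MF (Y / p)).filter (fun v => S.rp (ml 0 1 π v) ∈ B) := by
    intro v hv
    rw [Finset.mem_union, Finset.mem_filter]
    have hv' := (mem_MF S).1 hv
    have hnv := wd_nm S hv'.1
    have hpn : 0 < nm 0 1 (ml 0 1 π v) := by rw [nm_ml]; exact mul_pos hnπ0 hnv
    have hgr : gg 0 1 h (S.rp (ml 0 1 π v)) = -gg 0 1 h v := by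
      rw [gg_rp S h hpn, gg_ml hs hnπ0.ne' hnv.ne', hgπ]; ring
    by_cases hgv : gg 0 1 h v = s
    · right
      refine ⟨hv, ?_⟩
      rw [hmB]
      refine ⟨⟨S.rp_wd _ hpn, ?_⟩, ?_⟩
      · rw [rp_nm S hpn, nm_ml, hnπ]
        push_cast
        have := hv'.2
        rw [le_div_iff₀ hp0] at this
        linarith
      · rw [hgr, hgv]
        rcases hs1 with rfl | rfl <;> norm_num
    · left
      rw [hmB]
      refine ⟨⟨hv'.1, hv'.2.trans ?_⟩, hgv⟩
      apply div_le_self hYpos.le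
      exact_mod_cast hp.one_le
  have hinj : ((S.MF (Y / p)).filter (fun v => S.rp (ml 0 1 π v) ∈ B)).card ≤ B.card := by
    apply Finset.card_le_card_of_injOn (fun v => S.rp (ml 0 1 π v))
    · intro v hv
      exact (Finset.mem_filter.1 (Finset.mem_coe.1 hv)).2
    · intro v hv w hw hvw
      have hv' := ((mem_MF S).1 (Finset.mem_filter.1 (Finset.mem_coe.1 hv)).1).1
      have hw' := ((mem_MF S).1 (Finset.mem_filter.1 (Finset.mem_coe.1 hw)).1).1
      exact rp_inj S hnπ0 hv' hw' hvw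
  have h1 : ((S.MF (Y / p)).card : ℝ) ≤ 2 * B.card := by
    have h2 : (S.MF (Y / p)).card ≤ B.card + B.card :=
      (Finset.card_le_card hsub).trans ((Finset.card_union_le _ _).trans
        (Nat.add_le_add_left hinj _))
    have h3 : ((S.MF (Y / p)).card : ℝ) ≤ B.card + B.card := by exact_mod_cast h2
    linarith
  have h2 := (hcard (Y / p) (by rw [le_div_iff₀ hp0]; linarith)).1
  have h3 : Y / p / CM ≤ 2 * (K * (δ * Y) + 2 * C * Y / K) := by linarith
  have h4 : K * (δ * Y) = Y / p / CM / 8 := by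
    rw [hδ]; field_simp
  have h5 : 2 * C * Y / K ≤ Y / p / CM / 8 := by
    rw [div_div, div_div, div_le_div_iff₀ hK0 (by positivity)]
    have : 2 * C * Y * (p * (CM * 8)) = (16 * C * CM * p) * Y := by ring
    rw [this, mul_comm Y]
    exact mul_le_mul_of_nonneg_right hKr hYpos.le
  have h6 : 0 < Y / p / CM := by positivity
  linarith

end Pool.Agent.ZO
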