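import Pool.Agent.Lib_helper1.ZO.I
import Pool.Agent.Lib_helper39.MRGF.All

/-! # ZO: the 0-1 law from the rigidity of Part I (helper1) -/

set_option autoImplicit false

namespace Pool.Agent.ZO

open Finset Pool.Agent.MQ

theorem mrgp : MRGP := fun ε hε => PENT.MRG.mrg ε hε

/-- THE 0-1 LAW from the rigidity -/
theorem zero_one_of_pt (hPT : ∀ δ C1 : ℝ, 0 < δ → 1 ≤ C1 → PATH.PT01 δ C1)
    {p : ℕ} (hp : p.Prime) (h4 : p % 4 ≠ 3) : ∃ c : ℝ, 0 < c ∧ ∃ x₀ : ℝ, ∀ h : ℕ → ℤ,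
    PENT.CM h → h p = -1 → ∀ x : ℝ, x₀ ≤ x → ∀ s : ℤ, (s = 1 ∨ s = -1) →
    c * x ≤ (((Icc 1 ⌊x⌋₊).filter (fun n => h (n ^ 2 + 1) = s)).card : ℝ) :=
  zero_one_red hPT mrgp hp h4

/-- THE 0-1 LAW from the covering families -/
theorem zero_one_of_fam (hF : ∀ δ C1 : ℝ, 0 < δ → 1 ≤ C1 → PATH.Fam01 δ C1)
    {p : ℕ} (hp : p.Prime) (h4 : p % 4 ≠ 3) : ∃ c : ℝ, 0 < c ∧ ∃ x₀ : ℝ, ∀ h : ℕ → ℤ,
    PENT.CM h → h p = -1 → ∀ x : ℝ, x₀ ≤ x → ∀ s : ℤ, (s = 1 ∨ s = -1) →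
    c * x ≤ (((Icc 1 ⌊x⌋₊).filter (fun n => h (n ^ 2 + 1) = s)).card : ℝ) :=
  zero_one_of_pt (fun δ C1 hδ hC1 => PATH.PT01_of_fam hδ (hF (δ / 2) C1 (by positivity) hC1)) hp h4

end Pool.Agent.ZO
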