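import Pool.Agent.Lib_helper15.TPF.Main
import Pool.Agent.Lib_helper15.UPAF.UBM
import Pool.Agent.Lib_helper15.UPAF.DGM
import Pool.Agent.Lib_helper15.UPAF.UC3
import Pool.Agent.Lib_helper15.UPAF.UC4
import Pool.Agent.Lib_helper18.PENMF.Mar
import Pool.Agent.Lib_helper39.COVF.All
import Pool.Agent.Lib_helper88.NCF.NE8
import Pool.Agent.Lib_helper1.ZO.J

/-!
# The 0-1 law: all inputs of Part I plugged in (helper1)
-/

set_option autoImplicit false

namespace Pool.Agent.ZO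

open Pool.Agent.PATH Pool.Agent.PATH.NC Pool.Agent.PENT

theorem fam_all : ∀ δ C1 : ℝ, 0 < δ → 1 ≤ C1 → Fam01 δ C1 :=
  fun δ C1 h h' => part_one 10 (by decide) (by norm_num) TPA.LB_all UPA.UB_all UPA.UB1_all
    UPA.UB2_all UPA.DG_all PENM.neg_all (PENM.mar_all UPA.DG_all UPA.DGN_all) COV.cov_all δ C1 h h'

end Pool.Agent.ZO
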